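import Pool.Agent.Helper82.FU.CX
import Pool.Agent.Helper51.FU.Field
import Mathlib.Topology.PartitionOfUnity

/-!
# `C(X)`-algebras are section algebras (project FU, MP_d97caa_an)
-/

set_option autoImplicit false
set_option linter.unusedSectionVars false

open scoped Topology
open Filter TopologicalSpace

namespace Pool.Agent.Helper39.FU

open Pool.Agent.Helper39.CarDefs Pool.Agent.Helper93.FU
open Pool.Agent.Helper82.FU (act_mul act_one act_add act_sub act_smul act_norm)

section ufield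

variable {X A : Type} [TopologicalSpace X] [CompactSpace X] [NonUnitalCStarAlgebra A]
  (c : CXAlg X A)

theorem ker_closed (x : X) : IsClosed (c.ker {x} : Set A) :=
  Submodule.isClosed_topologicalClosure _

theorem mem_ker_act {x : X} {f : C(X, ℂ)} (hf : f x = 0) (a : A) : c.act f a ∈ c.ker {x} := by
  refine Submodule.le_topologicalClosure _ (Submodule.subset_span ⟨f, a, ?_, rfl⟩)
  intro y hy
  rw [Set.mem_singleton_iff.1 hy]
  exact hf

theorem ker_le {x : X} (K : Submodule ℂ A) (hK : IsClosed (K : Set A))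
    (h : ∀ (f : C(X, ℂ)) (a : A), f x = 0 → c.act f a ∈ K) : c.ker {x} ≤ K := by
  refine Submodule.topologicalClosure_minimal _ (Submodule.span_le.2 ?_) hK
  rintro z ⟨f, a, hf, rfl⟩
  exact h f a (hf x rfl)

theorem ker_ideal (x : X) : ∀ z ∈ c.ker {x}, ∀ b, b * z ∈ c.ker {x} ∧ z * b ∈ c.ker {x} := by
  intro z hz b
  let K : Submodule ℂ A :=
    { carrier := {z | b * z ∈ c.ker {x} ∧ z * b ∈ c.ker {x}}
      add_mem' := by
        intro y z hy hz
        change b * (y + z) ∈ _ ∧ (y + z) * b ∈ _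
        rw [mul_add, add_mul]
        exact ⟨Submodule.add_mem _ hy.1 hz.1, Submodule.add_mem _ hy.2 hz.2⟩
      zero_mem' := by
        change b * 0 ∈ _ ∧ 0 * b ∈ _
        rw [mul_zero, zero_mul]
        exact ⟨Submodule.zero_mem _, Submodule.zero_mem _⟩
      smul_mem' := by
        intro r z hz
        change b * (r • z) ∈ _ ∧ (r • z) * b ∈ _
        rw [mul_smul_comm, smul_mul_assoc]
        exact ⟨Submodule.smul_mem _ _ hz.1, Submodule.smul_mem _ _ hz.2⟩ }
  have hK : IsClosed (K : Set A) :=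
    ((ker_closed c x).preimage (continuous_const.mul continuous_id)).inter
      ((ker_closed c x).preimage (continuous_id.mul continuous_const))
  refine ker_le c K hK (fun f a hf => ?_) hz
  change b * c.act f a ∈ _ ∧ c.act f a * b ∈ _
  rw [← c.mul_right, ← c.mul_left]
  exact ⟨mem_ker_act c hf _, mem_ker_act c hf _⟩

theorem ker_star (x : X) : ∀ z ∈ c.ker {x}, star z ∈ c.ker {x} := by
  intro z hz
  let K : Submodule ℂ A :=
    { carrier := {z | star z ∈ c.ker {x}}
      add_mem' := by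
        intro y z hy hz
        change star (y + z) ∈ c.ker {x}
        rw [star_add]
        exact Submodule.add_mem _ hy hz
      zero_mem' := by
        change star (0 : A) ∈ c.ker {x}
        rw [star_zero]
        exact Submodule.zero_mem _
      smul_mem' := by
        intro r z hz
        change star (r • z) ∈ c.ker {x}
        rw [star_smul]
        exact Submodule.smul_mem _ _ hz }
  have hK : IsClosed (K : Set A) := (ker_closed c x).preimage continuous_star
  refine ker_le c K hK (fun f a hf => ?_) hz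
  change star (c.act f a) ∈ c.ker {x}
  rw [c.star_act]
  refine mem_ker_act c ?_ _
  change star (f x) = 0
  rw [hf, star_zero]

/-- elements of `ker {x}` are small near `x` -/
theorem small_span {x : X} (z : A)
    (hz : z ∈ Submodule.span ℂ {z : A | ∃ (f : C(X, ℂ)) (a : A), (∀ y ∈ ({x} : Set X), f y = 0) ∧
      z = c.act f a}) :
    ∀ ε : ℝ, 0 < ε → ∃ U : Set X, IsOpen U ∧ x ∈ U ∧ ∀ f : C(X, ℂ), ‖f‖ ≤ 1 →
      (∀ y, y ∉ U → f y = 0) → ‖c.act f z‖ ≤ ε := by
  induction hz using Submodule.span_induction with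
  | mem z hz =>
    obtain ⟨g, a, hg, rfl⟩ := hz
    intro ε hε
    refine ⟨{y | ‖g y‖ < ε / (‖a‖ + 1)}, isOpen_lt g.continuous.norm continuous_const, ?_, ?_⟩
    · change ‖g x‖ < _
      rw [hg x rfl, norm_zero]
      positivity
    · intro f hf hf'
      rw [← act_mul]
      have h1 : ‖f * g‖ ≤ ε / (‖a‖ + 1) := by
        rw [ContinuousMap.norm_le _ (by positivity)]
        intro y
        change ‖f y * g y‖ ≤ _
        by_cases hy : ‖g y‖ < ε / (‖a‖ + 1)
        · rw [norm_mul]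
          have h2 : ‖f y‖ ≤ 1 := (f.norm_coe_le_norm y).trans hf
          calc ‖f y‖ * ‖g y‖ ≤ 1 * (ε / (‖a‖ + 1)) :=
                mul_le_mul h2 hy.le (norm_nonneg _) zero_le_one
            _ = _ := one_mul _
        · rw [hf' y hy, zero_mul, norm_zero]
          positivity
      calc ‖c.act (f * g) a‖ ≤ ‖f * g‖ * ‖a‖ := act_norm c _ _
        _ ≤ ε / (‖a‖ + 1) * (‖a‖ + 1) :=
          mul_le_mul h1 (by linarith) (norm_nonneg _) (by positivity)
        _ = ε := by field_simp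
  | zero =>
    intro ε hε
    refine ⟨Set.univ, isOpen_univ, trivial, fun f _ _ => ?_⟩
    rw [map_zero, norm_zero]
    exact hε.le
  | add y z _ _ hy hz =>
    intro ε hε
    obtain ⟨U, hU, hxU, h1⟩ := hy (ε / 2) (by positivity)
    obtain ⟨V, hV, hxV, h2⟩ := hz (ε / 2) (by positivity)
    refine ⟨U ∩ V, hU.inter hV, ⟨hxU, hxV⟩, fun f hf hf' => ?_⟩
    rw [map_add]
    have h3 := h1 f hf (fun y hy => hf' y (fun h => hy h.1))
    have h4 := h2 f hf (fun y hy => hf' y (fun h => hy h.2))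
    have h5 := norm_add_le (c.act f y) (c.act f z)
    linarith
  | smul r z _ hz =>
    intro ε hε
    obtain ⟨U, hU, hxU, h1⟩ := hz (ε / (‖r‖ + 1)) (by positivity)
    refine ⟨U, hU, hxU, fun f hf hf' => ?_⟩
    rw [map_smul, norm_smul]
    calc ‖r‖ * ‖c.act f z‖ ≤ (‖r‖ + 1) * (ε / (‖r‖ + 1)) :=
          mul_le_mul (by linarith) (h1 f hf hf') (norm_nonneg _) (by positivity)
      _ = ε := by field_simp

theorem small_ker {x : X} (z : A) (hz : z ∈ c.ker {x}) (ε : ℝ) (hε : 0 < ε) :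
    ∃ U : Set X, IsOpen U ∧ x ∈ U ∧ ∀ f : C(X, ℂ), ‖f‖ ≤ 1 →
      (∀ y, y ∉ U → f y = 0) → ‖c.act f z‖ ≤ ε := by
  have h1 : z ∈ closure ((Submodule.span ℂ {z : A | ∃ (f : C(X, ℂ)) (a : A),
      (∀ y ∈ ({x} : Set X), f y = 0) ∧ z = c.act f a} : Submodule ℂ A) : Set A) := hz
  obtain ⟨z', hz', hd⟩ := Metric.mem_closure_iff.1 h1 (ε / 2) (by positivity)
  obtain ⟨U, hU, hxU, h2⟩ := small_span c z' hz' (ε / 2) (by positivity)
  refine ⟨U, hU, hxU, fun f hf hf' => ?_⟩
  have h3 := h2 f hf hf'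
  have h4 : ‖c.act f (z - z')‖ ≤ ε / 2 := by
    rw [dist_eq_norm] at hd
    calc ‖c.act f (z - z')‖ ≤ ‖f‖ * ‖z - z'‖ := act_norm c _ _
      _ ≤ 1 * (ε / 2) := mul_le_mul hf hd.le (norm_nonneg _) zero_le_one
      _ = ε / 2 := one_mul _
  have h5 : c.act f z = c.act f (z - z') + c.act f z' := by
    rw [← map_add, sub_add_cancel]
  rw [h5]
  have h6 := norm_add_le (c.act f (z - z')) (c.act f z')
  linarith

/-! ### The intersection of the kernels -/

/-- iterated squares -/
def sqs (h : A) : ℕ → A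
  | 0 => h
  | k + 1 => sqs h k * sqs h k

theorem sqs_sa {h : A} (hh : star h = h) (k : ℕ) : star (sqs h k) = sqs h k := by
  induction k with
  | zero => exact hh
  | succ k ih =>
    change star (sqs h k * sqs h k) = sqs h k * sqs h k
    rw [star_mul, ih]

theorem norm_sqs {h : A} (hh : star h = h) (k : ℕ) : ‖sqs h k‖ = ‖h‖ ^ 2 ^ k := by
  induction k with
  | zero => simp [sqs]
  | succ k ih =>
    change ‖sqs h k * sqs h k‖ = _
    have h1 : sqs h k * sqs h k = star (sqs h k) * sqs h k := by rw [sqs_sa hh]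
    rw [h1, CStarRing.norm_star_mul_self, ih, pow_succ 2 k, pow_mul, sq]

/-- a real function as a complex one -/
def cpx (f : C(X, ℝ)) : C(X, ℂ) := ⟨fun x => (f x : ℂ), by fun_prop⟩

@[simp] theorem cpx_apply (f : C(X, ℝ)) (x : X) : cpx f x = (f x : ℂ) := rfl

theorem cpx_norm (f : C(X, ℝ)) (h : ∀ x, f x ∈ Set.Icc (0 : ℝ) 1) : ‖cpx f‖ ≤ 1 := by
  rw [ContinuousMap.norm_le _ zero_le_one]
  intro x
  rw [cpx_apply, Complex.norm_real, Real.norm_of_nonneg (h x).1]
  exact (h x).2

/-- the square root of a function -/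
noncomputable def sqf (f : C(X, ℝ)) : C(X, ℝ) := ⟨fun x => Real.sqrt (f x), by fun_prop⟩

@[simp] theorem sqf_apply (f : C(X, ℝ)) (x : X) : sqf f x = Real.sqrt (f x) := rfl

theorem sqf_mem {f : C(X, ℝ)} (h : ∀ x, f x ∈ Set.Icc (0 : ℝ) 1) (x : X) :
    sqf f x ∈ Set.Icc (0 : ℝ) 1 :=
  ⟨Real.sqrt_nonneg _, Real.sqrt_le_one.2 (h x).2⟩

theorem act_sqs {h : A} {ε : ℝ} {U : Set X}
    (hU : ∀ f : C(X, ℂ), ‖f‖ ≤ 1 → (∀ y, y ∉ U → f y = 0) → ‖c.act f h‖ ≤ ε) (k : ℕ) :
    ∀ f : C(X, ℝ), (∀ x, f x ∈ Set.Icc (0 : ℝ) 1) → (∀ y, y ∉ U → f y = 0) →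
      ‖c.act (cpx f) (sqs h k)‖ ≤ ε ^ 2 ^ k := by
  induction k with
  | zero =>
    intro f hf hf'
    rw [pow_zero, pow_one]
    exact hU _ (cpx_norm f hf) (fun y hy => by rw [cpx_apply, hf' y hy, Complex.ofReal_zero])
  | succ k ih =>
    intro f hf hf'
    have h1 : cpx f = cpx (sqf f) * cpx (sqf f) := by
      ext x
      change (f x : ℂ) = ((Real.sqrt (f x) : ℝ) : ℂ) * ((Real.sqrt (f x) : ℝ) : ℂ)
      rw [← Complex.ofReal_mul, Real.mul_self_sqrt (hf x).1]
    have h2 : c.act (cpx f) (sqs h (k + 1)) =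
        c.act (cpx (sqf f)) (sqs h k) * c.act (cpx (sqf f)) (sqs h k) := by
      rw [h1, act_mul]
      change c.act (cpx (sqf f)) (c.act (cpx (sqf f)) (sqs h k * sqs h k)) = _
      rw [c.mul_left, c.mul_right]
    have h3 := ih (sqf f) (sqf_mem hf) (fun y hy => by
      rw [sqf_apply, hf' y hy, Real.sqrt_zero])
    rw [h2, pow_succ 2 k, pow_mul, sq]
    refine (norm_mul_le _ _).trans (mul_le_mul h3 h3 (norm_nonneg _) ?_)
    exact (norm_nonneg _).trans h3

theorem inj_sa [T2Space X] {h : A} (hh : star h = h) (h0 : ∀ x, h ∈ c.ker {x}) : h = 0 := by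
  classical
  rw [← norm_le_zero_iff]
  apply le_of_forall_pos_le_add
  intro ε hε
  rw [zero_add]
  choose U hU hxU hUf using fun x => small_ker c h (h0 x) ε hε
  obtain ⟨s, hs⟩ := isCompact_univ.elim_nhds_subcover U
    (fun x _ => (hU x).mem_nhds (hxU x))
  obtain ⟨ρ, hρ⟩ := PartitionOfUnity.exists_isSubordinate (isClosed_univ (X := X))
    (fun i : {x // x ∈ s} => U i.1) (fun i => hU i.1) (by
      intro x _
      obtain ⟨y, hy⟩ := Set.mem_iUnion.1 (hs.2 (Set.mem_univ x))
      obtain ⟨hys, hy⟩ := Set.mem_iUnion.1 hy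
      exact Set.mem_iUnion.2 ⟨⟨y, hys⟩, hy⟩)
  have h1 : (1 : C(X, ℂ)) = ∑ i : {x // x ∈ s}, cpx (ρ i) := by
    ext x
    have h2 := ρ.sum_eq_one (Set.mem_univ x)
    rw [finsum_eq_sum_of_fintype] at h2
    rw [ContinuousMap.sum_apply]
    change (1 : ℂ) = ∑ i, ((ρ i x : ℝ) : ℂ)
    rw [← Complex.ofReal_sum, h2, Complex.ofReal_one]
  have h2 : ∀ k, ‖h‖ ^ 2 ^ k ≤ Fintype.card {x // x ∈ s} * ε ^ 2 ^ k := by
    intro k
    rw [← norm_sqs hh]
    have h3 : sqs h k = ∑ i : {x // x ∈ s}, c.act (cpx (ρ i)) (sqs h k) := by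
      conv_lhs => rw [← act_one c (sqs h k), h1, map_sum, LinearMap.sum_apply]
    rw [h3]
    refine (norm_sum_le _ _).trans ?_
    rw [← nsmul_eq_mul, ← Finset.card_univ, ← Finset.sum_const]
    refine Finset.sum_le_sum fun i _ => ?_
    refine act_sqs c (hUf i.1) k (ρ i) (fun x => ⟨ρ.nonneg i x, ρ.le_one i x⟩) ?_
    intro y hy
    by_contra hne
    exact hy (hρ i (subset_tsupport _ hne))
  by_contra hlt
  rw [not_le] at hlt
  have h3 : 1 < ‖h‖ / ε := (one_lt_div hε).2 hlt
  obtain ⟨n, hn⟩ := pow_unbounded_of_one_lt (Fintype.card {x // x ∈ s} : ℝ) h3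
  have h4 : (‖h‖ / ε) ^ n ≤ (‖h‖ / ε) ^ 2 ^ n :=
    pow_le_pow_right₀ h3.le (Nat.lt_two_pow_self).le
  have h5 : (‖h‖ / ε) ^ 2 ^ n ≤ Fintype.card {x // x ∈ s} := by
    rw [div_pow, div_le_iff₀ (by positivity)]
    exact h2 n
  linarith

end ufield

/-- A `C(X)`-algebra with given fibres is the section algebra of the field of the fibres. -/
theorem ufield {X A : Type} [TopologicalSpace X] [CompactSpace X] [T2Space X]
    [NonUnitalCStarAlgebra A] (c : CXAlg X A) (F : X → Type) [∀ x, NonUnitalCStarAlgebra (F x)]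
    (π : ∀ x, Hom A (F x)) (h : ∀ x, c.IsFibre x (π x)) :
    ∃ Φ : Pool.Agent.Helper51.FU.UField X F A, Φ.π = π := by
  have hπs : ∀ x, Function.Surjective (π x) := fun x => (h x).1
  have hπk : ∀ x b, π x b = 0 ↔ b ∈ c.ker {x} := fun x => (h x).2
  have hact : ∀ (x : X) (f : C(X, ℂ)) (a : A), π x (c.act f a) = f x • π x a := by
    intro x f a
    have h1 : c.act (f - f x • (1 : C(X, ℂ))) a ∈ c.ker {x} := by
      refine mem_ker_act c ?_ a
      change f x - f x * 1 = 0
      rw [mul_one, sub_self]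
    have h2 := (hπk x _).2 h1
    rw [act_sub, act_smul, act_one, map_sub, map_smul, sub_eq_zero] at h2
    exact h2
  refine ⟨{ π := π
            surj := hπs
            inj := ?_
            usc := ?_
            mod := fun f a => ⟨c.act f a, fun x => hact x f a⟩ }, rfl⟩
  · intro a ha
    have h1 : star a * a = 0 := by
      refine inj_sa c (by rw [star_mul, star_star]) (fun x => ?_)
      rw [← hπk, map_mul, ha, mul_zero]
    exact (CStarRing.star_mul_self_eq_zero_iff a).1 h1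
  · intro a x r hr
    change ‖π x a‖ < r at hr
    obtain ⟨b, hb, hbr⟩ := lift_lt (π x) a r hr
    have h1 : a - b ∈ c.ker {x} := by
      rw [← hπk, map_sub, hb, sub_self]
    obtain ⟨U, hU, hxU, h2⟩ := small_ker c (a - b) h1 ((r - ‖b‖) / 2) (by linarith)
    filter_upwards [hU.mem_nhds hxU] with y hy
    obtain ⟨f, hf0, hf1, hf⟩ := exists_continuous_zero_one_of_isClosed hU.isClosed_compl
      (isClosed_singleton (x := y)) (by
        rw [Set.disjoint_singleton_right]
        exact fun h => h hy)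
    have h3 := h2 (cpx f) (cpx_norm f hf) (fun z hz => by
      rw [cpx_apply, hf0 hz]; exact Complex.ofReal_zero)
    have h4 : π y (a - b) = π y (c.act (cpx f) (a - b)) := by
      rw [hact, cpx_apply, hf1 (Set.mem_singleton y)]
      simp
    have h5 : ‖π y (a - b)‖ ≤ (r - ‖b‖) / 2 := by
      rw [h4]
      exact (NonUnitalStarAlgHom.norm_apply_le _ _).trans h3
    have h6 : ‖π y a‖ ≤ ‖π y (a - b)‖ + ‖π y b‖ := by
      have := norm_add_le (π y (a - b)) (π y b)
      rwa [← map_add, sub_add_cancel] at this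
    have h7 := NonUnitalStarAlgHom.norm_apply_le (π y) b
    change ‖π y a‖ < r
    linarith

/-- **A `C(X)`-algebra is the algebra of the sections of the upper semicontinuous field of its
fibres.** -/
theorem exists_ufield {X A : Type} [TopologicalSpace X] [CompactSpace X] [T2Space X]
    [NonUnitalCStarAlgebra A] (c : CXAlg X A) :
    ∃ (F : X → Type) (_ : ∀ x, NonUnitalCStarAlgebra (F x))
      (Φ : Pool.Agent.Helper51.FU.UField X F A), ∀ x, c.IsFibre x (Φ.π x) := by
  have key : ∀ x, ∃ (Q : Type) (_ : NonUnitalCStarAlgebra Q) (π : A →⋆ₙₐ[ℂ] Q),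
      Function.Surjective π ∧ ∀ b, π b = 0 ↔ b ∈ c.ker {x} :=
    fun x => Pool.Agent.Helper42.Uct.stmtQT A (c.ker {x}) (ker_closed c x) (ker_ideal c x)
      (ker_star c x)
  choose F iF π hπs hπk using key
  obtain ⟨Φ, hΦ⟩ := ufield c F π (fun x => ⟨hπs x, hπk x⟩)
  exact ⟨F, iF, Φ, fun x => by rw [hΦ]; exact ⟨hπs x, hπk x⟩⟩

end Pool.Agent.Helper39.FU
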