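import Pool.Agent.Helper42.Uct.QT

/-!
# Sequence algebras and reindexing (project FU, MP_d97caa_an)

`P W = lp (fun _ : ℕ => W) ∞` is the C*-algebra of bounded sequences in `W`. A sequence algebra of `W`
is a quotient `q : P W → Q` whose kernel is the set of the sequences which tend to `0`
(`IsSeqAlg q`). The main result: a separable algebra in a sequence algebra of `Q` can be mapped to `Q`
by a *-homomorphism which fixes the constant sequences (`reindex`).
-/

set_option autoImplicit false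

open scoped ENNReal Topology
open Filter

namespace Pool.Agent.Helper39.FU

/-! ## Lifting with control of the norm -/

section lift

variable {B Q : Type} [NonUnitalCStarAlgebra B] [NonUnitalCStarAlgebra Q]

theorem cont (q : B →⋆ₙₐ[ℂ] Q) : Continuous q :=
  AddMonoidHomClass.continuous_of_bound q 1
    (fun a => by simpa using NonUnitalStarAlgHom.norm_apply_le q a)

/-- the kernel -/
def kerI (q : B →⋆ₙₐ[ℂ] Q) : Submodule ℂ B where
  carrier := {b | q b = 0}
  add_mem' := by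
    intro a b ha hb
    change q (a + b) = 0
    have ha' : q a = 0 := ha
    have hb' : q b = 0 := hb
    rw [map_add, ha', hb', add_zero]
  zero_mem' := map_zero q
  smul_mem' := by
    intro c a ha
    change q (c • a) = 0
    have ha' : q a = 0 := ha
    rw [map_smul, ha', smul_zero]

theorem kerI_isId (q : B →⋆ₙₐ[ℂ] Q) : Pool.Agent.Helper42.Uct.IsId (kerI q) where
  closed := isClosed_eq (cont q) continuous_const
  ideal := by
    intro x hx b
    have hx' : q x = 0 := hx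
    constructor
    · change q (b * x) = 0
      rw [map_mul, hx', mul_zero]
    · change q (x * b) = 0
      rw [map_mul, hx', zero_mul]
  star := by
    intro x hx
    have hx' : q x = 0 := hx
    change q (star x) = 0
    rw [map_star, hx', star_zero]

theorem lift_lt (q : B →⋆ₙₐ[ℂ] Q) (x : B) (r : ℝ) (hr : ‖q x‖ < r) :
    ∃ y : B, q y = q x ∧ ‖y‖ < r := by
  let _ := Pool.Agent.Helper42.Uct.qalg (kerI_isId q)
  let φ : (B ⧸ kerI q) →⋆ₙₐ[ℂ] Q :=
    { toFun := fun z => Quotient.liftOn z q (by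
        intro a b hab
        have h1 := (Submodule.quotientRel_def (kerI q)).1 hab
        have h2 : q (a - b) = 0 := h1
        rw [map_sub] at h2
        exact sub_eq_zero.mp h2)
      map_smul' := by rintro c ⟨a⟩; exact map_smul q c a
      map_zero' := map_zero q
      map_add' := by rintro ⟨a⟩ ⟨b⟩; exact map_add q a b
      map_mul' := by rintro ⟨a⟩ ⟨b⟩; exact map_mul q a b
      map_star' := by rintro ⟨a⟩; exact map_star q a }
  have hφ : Function.Injective φ := by
    intro z w h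
    rw [← sub_eq_zero] at h ⊢
    rw [← map_sub] at h
    generalize z - w = u at h
    obtain ⟨b, rfl⟩ := Submodule.Quotient.mk_surjective (kerI q) u
    exact (Submodule.Quotient.mk_eq_zero (kerI q)).mpr h
  have hn : ‖(Submodule.Quotient.mk x : B ⧸ kerI q)‖ = ‖q x‖ :=
    (NonUnitalStarAlgHom.norm_map φ hφ (Submodule.Quotient.mk x)).symm
  obtain ⟨y, hy, hy'⟩ := Submodule.Quotient.norm_mk_lt
    (Submodule.Quotient.mk x : B ⧸ kerI q) (sub_pos.mpr hr)
  refine ⟨y, ?_, ?_⟩
  · have := congrArg φ hy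
    exact this
  · have h3 : ‖(Submodule.Quotient.mk x : B ⧸ kerI q)‖ + (r - ‖q x‖) = r := by rw [hn]; ring
    exact hy'.trans_le h3.le

end lift

/-! ## Sequence algebras -/

/-- bounded sequences -/
abbrev P (W : Type) [NonUnitalCStarAlgebra W] : Type := lp (fun _ : ℕ => W) ∞

/-- `q` is the quotient of the bounded sequences by the null sequences -/
structure IsSeqAlg {W Q : Type} [NonUnitalCStarAlgebra W] [NonUnitalCStarAlgebra Q]
    (q : P W →⋆ₙₐ[ℂ] Q) : Prop where
  surj : Function.Surjective q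
  ker : ∀ x : P W, q x = 0 ↔ Tendsto (fun k => ‖x k‖) atTop (𝓝 0)

/-- a bounded sequence -/
def mkP {W : Type} [NonUnitalCStarAlgebra W] (x : ℕ → W) (C : ℝ) (h : ∀ k, ‖x k‖ ≤ C) : P W :=
  ⟨x, memℓp_infty ⟨C, by rintro _ ⟨k, rfl⟩; exact h k⟩⟩

@[simp] theorem mkP_apply {W : Type} [NonUnitalCStarAlgebra W] (x : ℕ → W) (C : ℝ)
    (h : ∀ k, ‖x k‖ ≤ C) (k : ℕ) : mkP x C h k = x k := rfl

theorem norm_le {W : Type} [NonUnitalCStarAlgebra W] (x : P W) (C : ℝ) (hC : 0 ≤ C)
    (h : ∀ k, ‖x k‖ ≤ C) : ‖x‖ ≤ C := lp.norm_le_of_forall_le hC h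

theorem apply_le {W : Type} [NonUnitalCStarAlgebra W] (x : P W) (k : ℕ) : ‖x k‖ ≤ ‖x‖ :=
  lp.norm_apply_le_norm (by simp) x k

section seq

variable {W Q : Type} [NonUnitalCStarAlgebra W] [NonUnitalCStarAlgebra Q] {q : P W →⋆ₙₐ[ℂ] Q}

theorem ev_lt (hq : IsSeqAlg q) (x : P W) (r : ℝ) (h : ‖q x‖ < r) : ∀ᶠ k in atTop, ‖x k‖ < r := by
  obtain ⟨y, hy, hyr⟩ := lift_lt q x r h
  have h0 : q (x - y) = 0 := by rw [map_sub, hy, sub_self]
  have h1 := (hq.ker (x - y)).mp h0
  have h2 : ∀ᶠ k in atTop, ‖(x - y) k‖ < r - ‖y‖ := h1.eventually_lt_const (sub_pos.mpr hyr)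
  filter_upwards [h2] with k hk
  have h3 : x k = (x - y) k + y k := by
    rw [lp.coeFn_sub, Pi.sub_apply, sub_add_cancel]
  rw [h3]
  have h4 := apply_le y k
  calc ‖(x - y) k + y k‖ ≤ ‖(x - y) k‖ + ‖y k‖ := norm_add_le _ _
    _ < _ := by linarith

theorem le_of_ev (hq : IsSeqAlg q) (x : P W) (r : ℝ) (hr : 0 ≤ r)
    (h : ∀ᶠ k in atTop, ‖x k‖ ≤ r) : ‖q x‖ ≤ r := by
  obtain ⟨K, hK⟩ := eventually_atTop.mp h
  let y : P W := mkP (fun k => if k < K then 0 else x k) r (by
    intro k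
    split_ifs with hk
    · rw [norm_zero]; exact hr
    · exact hK k (not_lt.mp hk))
  have h0 : q (x - y) = 0 := by
    rw [hq.ker]
    apply tendsto_const_nhds.congr'
    filter_upwards [eventually_ge_atTop K] with k hk
    rw [lp.coeFn_sub, Pi.sub_apply]
    have : y k = x k := by
      change (if k < K then 0 else x k) = x k
      rw [if_neg (by omega)]
    rw [this, sub_self, norm_zero]
  have h1 : q x = q y := by rw [map_sub] at h0; exact sub_eq_zero.mp h0
  rw [h1]
  refine (NonUnitalStarAlgHom.norm_apply_le q y).trans (norm_le y r hr ?_)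
  intro k
  change ‖(if k < K then 0 else x k : W)‖ ≤ r
  split_ifs with hk
  · rw [norm_zero]; exact hr
  · exact hK k (not_lt.mp hk)

theorem le_of_ev' (hq : IsSeqAlg q) (x : P W) (r : ℝ) (hr : 0 ≤ r)
    (h : ∀ ε > 0, ∀ᶠ k in atTop, ‖x k‖ < r + ε) : ‖q x‖ ≤ r := by
  apply le_of_forall_pos_le_add
  intro ε hε
  exact le_of_ev hq x (r + ε) (by linarith) ((h ε hε).mono fun k hk => hk.le)

end seq

/-! ## The diagonal argument -/

theorem diag0 (R : ℕ → ℕ → ℕ → Prop) (h : ∀ s, ∀ᶠ a in atTop, ∀ᶠ k in atTop, R s a k) :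
    ∃ α : ℕ → ℕ, ∀ s, ∀ᶠ k in atTop, R s (α k) k := by
  have h1 : ∀ N : ℕ, ∃ a, ∃ K, ∀ s ≤ N, ∀ k ≥ K, R s a k := by
    intro N
    have h2 : ∀ᶠ a in atTop, ∀ s ∈ Finset.range (N + 1), ∀ᶠ k in atTop, R s a k :=
      (eventually_all_finset _).mpr fun s _ => h s
    obtain ⟨a, ha⟩ := h2.exists
    have h3 : ∀ᶠ k in atTop, ∀ s ∈ Finset.range (N + 1), R s a k :=
      (eventually_all_finset _).mpr ha
    obtain ⟨K, hK⟩ := eventually_atTop.mp h3
    exact ⟨a, K, fun s hs k hk => hK k hk s (Finset.mem_range.mpr (by omega))⟩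
  choose a K hK using h1
  let L : ℕ → ℕ := fun N => (∑ M ∈ Finset.range (N + 1), K M) + N
  have hKL : ∀ N, K N ≤ L N := by
    intro N
    have : K N ≤ ∑ M ∈ Finset.range (N + 1), K M :=
      Finset.single_le_sum (f := K) (fun _ _ => Nat.zero_le _) (Finset.mem_range.mpr (by omega))
    change K N ≤ (∑ M ∈ Finset.range (N + 1), K M) + N
    omega
  have hNL : ∀ N, N ≤ L N := fun N => Nat.le_add_left _ _
  let m : ℕ → ℕ := fun k => Nat.findGreatest (fun N => L N ≤ k) k
  refine ⟨fun k => a (m k), fun s => ?_⟩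
  filter_upwards [eventually_ge_atTop (L s)] with k hk
  have h4 : s ≤ m k := Nat.le_findGreatest ((hNL s).trans hk) hk
  have h5 : L (m k) ≤ k := Nat.findGreatest_spec (P := fun N => L N ≤ k) ((hNL s).trans hk) hk
  exact hK (m k) s h4 k ((hKL _).trans h5)

theorem diag (Rel : Type) [Countable Rel] (r : Rel → ℕ → ℕ → ℝ) (R : Rel → ℝ)
    (h : ∀ ρ, ∀ ε > 0, ∀ᶠ a in atTop, ∀ᶠ k in atTop, r ρ a k < R ρ + ε) :
    ∃ α : ℕ → ℕ, ∀ ρ, ∀ ε > 0, ∀ᶠ k in atTop, r ρ (α k) k < R ρ + ε := by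
  rcases isEmpty_or_nonempty Rel with hE | hE
  · exact ⟨fun _ => 0, fun ρ => (hE.false ρ).elim⟩
  obtain ⟨f, hf⟩ := exists_surjective_nat (Rel × ℕ)
  obtain ⟨α, hα⟩ := diag0 (fun s a k => r (f s).1 a k < R (f s).1 + 1 / ((f s).2 + 1 : ℝ))
    (fun s => h _ _ (by positivity))
  refine ⟨α, fun ρ ε hε => ?_⟩
  obtain ⟨n, hn⟩ := exists_nat_one_div_lt hε
  obtain ⟨s, hs⟩ := hf (ρ, n)
  have h2 := hα s
  rw [hs] at h2
  filter_upwards [h2] with k hk
  linarith

/-! ## Extension of approximate homomorphisms from a dense family -/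

theorem extend {E Q I : Type} [NonUnitalCStarAlgebra E] [NonUnitalCStarAlgebra Q]
    (u : I → E) (hu : DenseRange u) (c : ℕ → ℂ) (hc : DenseRange c) (t : I → Q)
    (h0 : ∀ i j, ‖t i - t j‖ ≤ ‖u i - u j‖)
    (h1 : ∀ m i j l, ‖t i + c m • t j - t l‖ ≤ ‖u i + c m • u j - u l‖)
    (h2 : ∀ i j l, ‖t i * t j - t l‖ ≤ ‖u i * u j - u l‖)
    (h3 : ∀ i j, ‖star (t i) - t j‖ ≤ ‖star (u i) - u j‖) :
    ∃ θ : E →⋆ₙₐ[ℂ] Q, ∀ i, θ (u i) = t i := by
  have happ : ∀ (x : E) (n : ℕ), ∃ i, ‖u i - x‖ < 1 / ((n : ℝ) + 1) := by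
    intro x n
    obtain ⟨i, hi⟩ := hu.exists_dist_lt x (ε := 1 / ((n : ℝ) + 1)) (by positivity)
    exact ⟨i, by rw [← dist_eq_norm, dist_comm]; exact hi⟩
  choose idx hidx using happ
  have hcau : ∀ x, CauchySeq fun n => t (idx x n) := by
    intro x
    have hux : Tendsto (fun n => u (idx x n)) atTop (𝓝 x) := by
      rw [tendsto_iff_norm_sub_tendsto_zero]
      refine squeeze_zero (fun n => norm_nonneg _) (fun n => (hidx x n).le) ?_
      exact tendsto_one_div_add_atTop_nhds_zero_nat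
    have hc1 := hux.cauchySeq
    rw [Metric.cauchySeq_iff] at hc1 ⊢
    intro ε hε
    obtain ⟨N, hN⟩ := hc1 ε hε
    refine ⟨N, fun m hm n hn => ?_⟩
    have := hN m hm n hn
    rw [dist_eq_norm] at this ⊢
    exact (h0 _ _).trans_lt this
  choose θ hθ using fun x => cauchySeq_tendsto_of_complete (hcau x)
  have hux : ∀ x, Tendsto (fun n => u (idx x n)) atTop (𝓝 x) := by
    intro x
    rw [tendsto_iff_norm_sub_tendsto_zero]
    refine squeeze_zero (fun n => norm_nonneg _) (fun n => (hidx x n).le) ?_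
    exact tendsto_one_div_add_atTop_nhds_zero_nat
  have hst : ∀ x i, ‖θ x - t i‖ ≤ ‖x - u i‖ := by
    intro x i
    have h4 : Tendsto (fun n => ‖t (idx x n) - t i‖) atTop (𝓝 ‖θ x - t i‖) :=
      ((hθ x).sub_const _).norm
    have h5 : Tendsto (fun n => ‖u (idx x n) - u i‖) atTop (𝓝 ‖x - u i‖) :=
      ((hux x).sub_const _).norm
    exact le_of_tendsto_of_tendsto' h4 h5 fun n => h0 _ _
  have hui : ∀ i, θ (u i) = t i := by
    intro i
    have := hst (u i) i
    rw [sub_self, norm_zero] at this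
    exact sub_eq_zero.mp (norm_le_zero_iff.mp this)
  have hlip : ∀ x y, ‖θ x - θ y‖ ≤ ‖x - y‖ := by
    intro x y
    have h4 : Tendsto (fun n => ‖θ x - t (idx y n)‖) atTop (𝓝 ‖θ x - θ y‖) :=
      ((hθ y).const_sub _).norm
    have h5 : Tendsto (fun n => ‖x - u (idx y n)‖) atTop (𝓝 ‖x - y‖) :=
      ((hux y).const_sub _).norm
    exact le_of_tendsto_of_tendsto' h4 h5 fun n => hst _ _
  have hcont : Continuous θ := by
    refine LipschitzWith.continuous (K := 1) (LipschitzWith.of_dist_le_mul ?_)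
    intro x y
    rw [dist_eq_norm, dist_eq_norm]
    simpa using hlip x y
  have key1 : ∀ (a : ℂ) (x y z : E), ‖θ x + a • θ y - θ z‖ ≤ ‖x + a • y - z‖ := by
    intro a x y z
    have hd : DenseRange (Prod.map c (Prod.map u (Prod.map u u))) :=
      hc.prodMap (hu.prodMap (hu.prodMap hu))
    refine hd.induction_on (p := fun p : ℂ × E × E × E =>
      ‖θ p.2.1 + p.1 • θ p.2.2.1 - θ p.2.2.2‖ ≤ ‖p.2.1 + p.1 • p.2.2.1 - p.2.2.2‖) (a, x, y, z) ?_ ?_
    · apply isClosed_le
      · fun_prop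
      · fun_prop
    · rintro ⟨m, i, j, l⟩
      simp only [Prod.map_apply, hui]
      exact h1 m i j l
  have key2 : ∀ (x y z : E), ‖θ x * θ y - θ z‖ ≤ ‖x * y - z‖ := by
    intro x y z
    have hd : DenseRange (Prod.map u (Prod.map u u)) := hu.prodMap (hu.prodMap hu)
    refine hd.induction_on (p := fun p : E × E × E =>
      ‖θ p.1 * θ p.2.1 - θ p.2.2‖ ≤ ‖p.1 * p.2.1 - p.2.2‖) (x, y, z) ?_ ?_
    · apply isClosed_le
      · fun_prop
      · fun_prop
    · rintro ⟨i, j, l⟩
      simp only [Prod.map_apply, hui]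
      exact h2 i j l
  have key3 : ∀ (x y : E), ‖star (θ x) - θ y‖ ≤ ‖star x - y‖ := by
    intro x y
    have hd : DenseRange (Prod.map u u) := hu.prodMap hu
    refine hd.induction_on (p := fun p : E × E =>
      ‖star (θ p.1) - θ p.2‖ ≤ ‖star p.1 - p.2‖) (x, y) ?_ ?_
    · apply isClosed_le
      · fun_prop
      · fun_prop
    · rintro ⟨i, j⟩
      simp only [Prod.map_apply, hui]
      exact h3 i j
  have hz : θ 0 = 0 := by
    have := key1 (-1) 0 0 0
    have h4 : ‖(0 : E) + (-1 : ℂ) • (0 : E) - 0‖ = 0 := by simp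
    rw [h4] at this
    have h5 := norm_le_zero_iff.mp this
    have h6 : θ 0 + (-1 : ℂ) • θ 0 - θ 0 = - θ 0 := by
      rw [neg_one_smul]; abel
    rw [h6] at h5
    exact neg_eq_zero.mp h5
  have hadd : ∀ x y, θ (x + y) = θ x + θ y := by
    intro x y
    have := key1 1 x y (x + y)
    rw [one_smul, one_smul, sub_self, norm_zero] at this
    exact (sub_eq_zero.mp (norm_le_zero_iff.mp this)).symm
  have hsmul : ∀ (a : ℂ) x, θ (a • x) = a • θ x := by
    intro a x
    have := key1 a 0 x (a • x)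
    rw [hz, zero_add, zero_add, sub_self, norm_zero] at this
    exact (sub_eq_zero.mp (norm_le_zero_iff.mp this)).symm
  have hmul : ∀ x y, θ (x * y) = θ x * θ y := by
    intro x y
    have := key2 x y (x * y)
    rw [sub_self, norm_zero] at this
    exact (sub_eq_zero.mp (norm_le_zero_iff.mp this)).symm
  have hstar : ∀ x, θ (star x) = star (θ x) := by
    intro x
    have := key3 x (star x)
    rw [sub_self, norm_zero] at this
    exact (sub_eq_zero.mp (norm_le_zero_iff.mp this)).symm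
  exact ⟨{ toFun := θ
           map_smul' := hsmul
           map_zero' := hz
           map_add' := hadd
           map_mul' := hmul
           map_star' := hstar }, hui⟩

/-! ## Reindexing -/

/-- codes for the relations which are kept -/
abbrev Rl (I : Type) : Type := (I × I) ⊕ (ℕ × I × I × I) ⊕ (I × I × I) ⊕ (I × I)

/-- the expression of a relation -/
def F {I A : Type} [NonUnitalCStarAlgebra A] (c : ℕ → ℂ) (ρ : Rl I) (x : I → A) : A :=
  match ρ with
  | .inl (i, j) => x i - x j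
  | .inr (.inl (m, i, j, l)) => x i + c m • x j - x l
  | .inr (.inr (.inl (i, j, l))) => x i * x j - x l
  | .inr (.inr (.inr (i, j))) => star (x i) - x j

theorem F_map {I A B : Type} [NonUnitalCStarAlgebra A] [NonUnitalCStarAlgebra B] (c : ℕ → ℂ)
    (ρ : Rl I) (x : I → A) (f : A →⋆ₙₐ[ℂ] B) : f (F c ρ x) = F c ρ (fun i => f (x i)) := by
  rcases ρ with ⟨i, j⟩ | ⟨m, i, j, l⟩ | ⟨i, j, l⟩ | ⟨i, j⟩
  · simp only [F, map_sub]
  · simp only [F, map_sub, map_add, map_smul]
  · simp only [F, map_sub, map_mul]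
  · simp only [F, map_sub, map_star]

theorem F_apply {I A : Type} [NonUnitalCStarAlgebra A] (c : ℕ → ℂ)
    (ρ : Rl I) (x : I → P A) (k : ℕ) : (F c ρ x) k = F c ρ (fun i => x i k) := by
  rcases ρ with ⟨i, j⟩ | ⟨m, i, j, l⟩ | ⟨i, j, l⟩ | ⟨i, j⟩ <;> rfl

/-- the constant sequence -/
def cst {Q : Type} [NonUnitalCStarAlgebra Q] (y : Q) : P Q := mkP (fun _ => y) ‖y‖ (fun _ => le_rfl)

/-- the embedding of the constant sequences -/
def cstHom (Q : Type) [NonUnitalCStarAlgebra Q] : Q →⋆ₙₐ[ℂ] P Q where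
  toFun := cst
  map_smul' := fun _ _ => rfl
  map_zero' := rfl
  map_add' := fun _ _ => rfl
  map_mul' := fun _ _ => rfl
  map_star' := fun _ => rfl

/-- **Reindexing.** `Q` is a sequence algebra of `W` and `Q'` is a sequence algebra of `Q`. If `E` is
separable, `e : E → Q'`, and `e ∘ j` is the composite of `d : D → Q` with the constant embedding
`Q → Q'`, then there is `θ : E → Q` with `θ ∘ j = d`. -/
theorem reindex {W Q Q' D E : Type} [NonUnitalCStarAlgebra W] [NonUnitalCStarAlgebra Q]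
    [NonUnitalCStarAlgebra Q'] [NonUnitalCStarAlgebra D] [NonUnitalCStarAlgebra E]
    [TopologicalSpace.SeparableSpace D] [TopologicalSpace.SeparableSpace E]
    {q : P W →⋆ₙₐ[ℂ] Q} {q' : P Q →⋆ₙₐ[ℂ] Q'} (hq : IsSeqAlg q) (hq' : IsSeqAlg q')
    (j : D →⋆ₙₐ[ℂ] E) (e : E →⋆ₙₐ[ℂ] Q') (d : D →⋆ₙₐ[ℂ] Q)
    (h : ∀ x, e (j x) = q' (cstHom Q (d x))) :
    ∃ θ : E →⋆ₙₐ[ℂ] Q, ∀ x, θ (j x) = d x := by
  classical
  let c : ℕ → ℂ := TopologicalSpace.denseSeq ℂ
  have hc : DenseRange c := TopologicalSpace.denseRange_denseSeq ℂ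
  let u : ℕ ⊕ ℕ → E := Sum.elim (TopologicalSpace.denseSeq E)
    (fun n => j (TopologicalSpace.denseSeq D n))
  have hu : DenseRange u := by
    refine (TopologicalSpace.denseRange_denseSeq E).mono ?_
    rintro _ ⟨n, rfl⟩
    exact ⟨.inl n, rfl⟩
  choose pre hpre using hq'.surj
  let v : ℕ ⊕ ℕ → P Q := Sum.elim (fun n => pre (e (TopologicalSpace.denseSeq E n)))
    (fun n => cstHom Q (d (TopologicalSpace.denseSeq D n)))
  have hv : ∀ i, q' (v i) = e (u i) := by
    rintro (n | n)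
    · exact hpre _
    · exact (h _).symm
  have hL : ∀ y : Q, ∃ x : P W, q x = y ∧ ‖x‖ < ‖y‖ + 1 := by
    intro y
    obtain ⟨x, hx⟩ := hq.surj y
    obtain ⟨z, hz, hz'⟩ := lift_lt q x (‖y‖ + 1) (by rw [hx]; linarith)
    exact ⟨z, hz.trans hx, hz'⟩
  choose L hL1 hL2 using hL
  let w : ℕ ⊕ ℕ → ℕ → P W := fun i a => L (v i a)
  have hrel : ∀ ρ : Rl (ℕ ⊕ ℕ), ∀ ε > 0, ∀ᶠ a in atTop, ∀ᶠ k in atTop,
      ‖F c ρ (fun i => w i a k)‖ < ‖F c ρ u‖ + ε := by
    intro ρ ε hε
    have h1 : ‖q' (F c ρ v)‖ < ‖F c ρ u‖ + ε := by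
      rw [F_map]
      have : (fun i => q' (v i)) = fun i => e (u i) := funext hv
      rw [this, ← F_map]
      have := NonUnitalStarAlgHom.norm_apply_le e (F c ρ u)
      linarith
    filter_upwards [ev_lt hq' _ _ h1] with a ha
    rw [F_apply] at ha
    have h2 : (fun i => (v i) a) = fun i => q (w i a) := funext fun i => (hL1 _).symm
    rw [h2, ← F_map] at ha
    filter_upwards [ev_lt hq _ _ ha] with k hk
    rwa [F_apply] at hk
  obtain ⟨α, hα⟩ := diag (Rl (ℕ ⊕ ℕ)) (fun ρ a k => ‖F c ρ (fun i => w i a k)‖)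
    (fun ρ => ‖F c ρ u‖) hrel
  have hb : ∀ i k, ‖w i (α k) k‖ ≤ ‖v i‖ + 1 := by
    intro i k
    have h1 := apply_le (w i (α k)) k
    have h2 := hL2 (v i (α k))
    have h3 := apply_le (v i) (α k)
    have h4 : ‖w i (α k)‖ < ‖v i (α k)‖ + 1 := h2
    linarith
  let T : ℕ ⊕ ℕ → P W := fun i => mkP (fun k => w i (α k) k) (‖v i‖ + 1) (hb i)
  have hT : ∀ ρ, ‖F c ρ (fun i => q (T i))‖ ≤ ‖F c ρ u‖ := by
    intro ρ
    rw [← F_map]
    apply le_of_ev' hq _ _ (norm_nonneg _)
    intro ε hε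
    filter_upwards [hα ρ ε hε] with k hk
    rw [F_apply]
    exact hk
  obtain ⟨θ, hθ⟩ := extend u hu c hc (fun i => q (T i))
    (fun i j => hT (.inl (i, j))) (fun m i j l => hT (.inr (.inl (m, i, j, l))))
    (fun i j l => hT (.inr (.inr (.inl (i, j, l))))) (fun i j => hT (.inr (.inr (.inr (i, j)))))
  refine ⟨θ, fun x => ?_⟩
  have hd : (fun x => θ (j x)) = fun x => d x := by
    refine DenseRange.equalizer (TopologicalSpace.denseRange_denseSeq D)
      ((cont θ).comp (cont j)) (cont d) ?_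
    funext n
    have h1 : θ (u (.inr n)) = q (T (.inr n)) := hθ (.inr n)
    have h2 : T (.inr n) = L (d (TopologicalSpace.denseSeq D n)) := by
      apply lp.ext
      funext k
      rfl
    have h3 : θ (j (TopologicalSpace.denseSeq D n)) = q (T (.inr n)) := h1
    change θ (j (TopologicalSpace.denseSeq D n)) = d (TopologicalSpace.denseSeq D n)
    rw [h3, h2, hL1]
  exact congrFun hd x

/-- sequence algebras exist -/
theorem exists_seqAlg (W : Type) [NonUnitalCStarAlgebra W] :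
    ∃ (Q : Type) (_ : NonUnitalCStarAlgebra Q) (q : P W →⋆ₙₐ[ℂ] Q), IsSeqAlg q := by
  let I : Submodule ℂ (P W) :=
    { carrier := {x | Tendsto (fun k => ‖x k‖) atTop (𝓝 0)}
      add_mem' := by
        intro a b ha hb
        have h1 : Tendsto (fun k => ‖a k‖ + ‖b k‖) atTop (𝓝 0) := by
          simpa using Tendsto.add (f := fun k => ‖a k‖) (g := fun k => ‖b k‖) ha hb
        exact squeeze_zero (fun k => norm_nonneg _) (fun k => norm_add_le (a k) (b k)) h1
      zero_mem' := by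
        have : (fun k => ‖(0 : P W) k‖) = fun _ => (0 : ℝ) := by
          funext k
          exact norm_zero
        change Tendsto (fun k => ‖(0 : P W) k‖) atTop (𝓝 0)
        rw [this]
        exact tendsto_const_nhds
      smul_mem' := by
        intro c x hx
        have h1 : Tendsto (fun k => ‖c‖ * ‖x k‖) atTop (𝓝 0) := by
          simpa using Tendsto.const_mul (f := fun k => ‖x k‖) ‖c‖ hx
        exact squeeze_zero (fun k => norm_nonneg _) (fun k => (norm_smul_le c (x k))) h1 }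
  have hI : ∀ x : P W, x ∈ I ↔ Tendsto (fun k => ‖x k‖) atTop (𝓝 0) := fun x => Iff.rfl
  have hcl : IsClosed (I : Set (P W)) := by
    rw [← isSeqClosed_iff_isClosed]
    intro x y hx hy
    change Tendsto (fun k => ‖y k‖) atTop (𝓝 0)
    rw [Metric.tendsto_atTop]
    intro ε hε
    rw [Metric.tendsto_atTop] at hy
    obtain ⟨N, hN⟩ := hy (ε / 2) (half_pos hε)
    have h1 : Tendsto (fun k => ‖x N k‖) atTop (𝓝 0) := hx N
    rw [Metric.tendsto_atTop] at h1
    obtain ⟨K, hK⟩ := h1 (ε / 2) (half_pos hε)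
    refine ⟨K, fun k hk => ?_⟩
    have h2 := hK k hk
    have h3 := hN N le_rfl
    rw [dist_zero_right, norm_norm] at h2 ⊢
    rw [dist_eq_norm] at h3
    have h4 : ‖x N k - y k‖ ≤ ‖x N - y‖ := apply_le (x N - y) k
    have h5 : ‖y k‖ ≤ ‖x N k‖ + ‖x N k - y k‖ := by
      have : y k = x N k - (x N k - y k) := by abel
      calc ‖y k‖ = ‖x N k - (x N k - y k)‖ := by rw [← this]
        _ ≤ _ := norm_sub_le _ _
    linarith
  obtain ⟨Q, iQ, π, hπ, hker⟩ := Pool.Agent.Helper42.Uct.stmtQT (P W) I hcl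
    (by
      intro x hx b
      have hx' : Tendsto (fun k => ‖x k‖) atTop (𝓝 0) := hx
      have h1 : Tendsto (fun k => ‖b‖ * ‖x k‖) atTop (𝓝 0) := by
        simpa using Tendsto.const_mul (f := fun k => ‖x k‖) ‖b‖ hx'
      constructor
      · refine squeeze_zero (fun k => norm_nonneg _) (fun k => ?_) h1
        exact (norm_mul_le (b k) (x k)).trans (by gcongr; exact apply_le b k)
      · refine squeeze_zero (fun k => norm_nonneg _) (fun k => ?_) h1
        rw [mul_comm]
        exact (norm_mul_le (x k) (b k)).trans (by gcongr; exact apply_le b k))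
    (by
      intro x hx
      have hx' : Tendsto (fun k => ‖x k‖) atTop (𝓝 0) := hx
      refine hx'.congr fun k => ?_
      exact (norm_star (x k)).symm)
  exact ⟨Q, iQ, π, hπ, fun x => (hker x).trans (hI x)⟩

end Pool.Agent.Helper39.FU
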