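import Pool.Agent.Helper93.FU.Defs
import Pool.Agent.Helper39.FU.Reindex

/-!
# Bounded sequences, null sequences and multiplier isometries (project FU, MP_d97caa_an)
-/

set_option autoImplicit false

open scoped ENNReal Topology ZeroAtInfty BoundedContinuousFunction
open Filter

namespace Pool.Agent.Helper39.FU

open Pool.Agent.Helper39.CarDefs Pool.Agent.Helper93.FU

noncomputable section

/-! ## Sequences -/

section seqs

variable {B : Type} [NonUnitalCStarAlgebra B]

/-- a bounded sequence -/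
def mkB (x : ℕ → B) (C : ℝ) (h : ∀ n, ‖x n‖ ≤ C) : ℕ →ᵇ B :=
  BoundedContinuousFunction.ofNormedAddCommGroup x continuous_of_discreteTopology C h

@[simp] theorem mkB_apply (x : ℕ → B) (C : ℝ) (h : ∀ n, ‖x n‖ ≤ C) (n : ℕ) :
    mkB x C h n = x n := rfl

/-- a null sequence -/
def mkC (x : ℕ → B) (h : Tendsto x atTop (𝓝 0)) : C₀(ℕ, B) where
  toFun := x
  continuous_toFun := continuous_of_discreteTopology
  zero_at_infty' := by
    rw [cocompact_eq_cofinite, Nat.cofinite_eq_atTop]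
    exact h

@[simp] theorem mkC_apply (x : ℕ → B) (h : Tendsto x atTop (𝓝 0)) (n : ℕ) :
    mkC x h n = x n := rfl

theorem tendsto_c (f : C₀(ℕ, B)) : Tendsto (fun n => f n) atTop (𝓝 0) := by
  have h := f.zero_at_infty'
  rw [cocompact_eq_cofinite, Nat.cofinite_eq_atTop] at h
  exact h

theorem tendsto_c_norm (f : C₀(ℕ, B)) : Tendsto (fun n => ‖f n‖) atTop (𝓝 0) := by
  simpa using (tendsto_c f).norm

theorem norm_c_apply (f : C₀(ℕ, B)) (n : ℕ) : ‖f n‖ ≤ ‖f‖ := by
  rw [← ZeroAtInftyContinuousMap.norm_toBCF_eq_norm]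
  exact f.toBCF.norm_coe_le_norm n

theorem norm_c_le (f : C₀(ℕ, B)) (C : ℝ) (hC : 0 ≤ C) (h : ∀ n, ‖f n‖ ≤ C) : ‖f‖ ≤ C := by
  rw [← ZeroAtInftyContinuousMap.norm_toBCF_eq_norm]
  exact (BoundedContinuousFunction.norm_le hC).mpr h

variable (B) in
/-- null sequences are bounded -/
def incl : Hom C₀(ℕ, B) (ℕ →ᵇ B) where
  toFun f := f.toBCF
  map_smul' _ _ := rfl
  map_zero' := rfl
  map_add' _ _ := rfl
  map_mul' _ _ := rfl
  map_star' _ := rfl

@[simp] theorem incl_apply (f : C₀(ℕ, B)) (n : ℕ) : incl B f n = f n := rfl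

variable (B) in
theorem incl_inj : Function.Injective (incl B) := by
  intro f g h
  ext n
  exact congrArg (fun F : ℕ →ᵇ B => F n) h

theorem mem_range_incl (f : ℕ →ᵇ B) :
    f ∈ Set.range (incl B) ↔ Tendsto (fun n => ‖f n‖) atTop (𝓝 0) := by
  constructor
  · rintro ⟨g, rfl⟩
    exact tendsto_c_norm g
  · intro h
    refine ⟨mkC (fun n => f n) (tendsto_zero_iff_norm_tendsto_zero.mpr h), ?_⟩
    ext n
    rfl

variable (B) in
/-- the constant sequences -/
def dlt : Hom B (ℕ →ᵇ B) where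
  toFun b := mkB (fun _ => b) ‖b‖ (fun _ => le_rfl)
  map_smul' _ _ := rfl
  map_zero' := rfl
  map_add' _ _ := rfl
  map_mul' _ _ := rfl
  map_star' _ := rfl

@[simp] theorem dlt_apply (b : B) (n : ℕ) : dlt B b n = b := rfl

/-- the coordinatewise application of a map -/
def mapB {B B' : Type} [NonUnitalCStarAlgebra B] [NonUnitalCStarAlgebra B'] (g : Hom B B') :
    Hom (ℕ →ᵇ B) (ℕ →ᵇ B') where
  toFun f := mkB (fun n => g (f n)) ‖f‖
    (fun n => (NonUnitalStarAlgHom.norm_apply_le g _).trans (f.norm_coe_le_norm n))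
  map_smul' c f := by ext n; exact map_smul g c (f n)
  map_zero' := by ext n; exact map_zero g
  map_add' f f' := by ext n; exact map_add g (f n) (f' n)
  map_mul' f f' := by ext n; exact map_mul g (f n) (f' n)
  map_star' f := by ext n; exact map_star g (f n)

/-! ### Comparison with `lp` -/

variable (B) in
/-- `ℕ →ᵇ B → lp` -/
def toP : Hom (ℕ →ᵇ B) (P B) where
  toFun f := mkP (fun n => f n) ‖f‖ (fun n => f.norm_coe_le_norm n)
  map_smul' _ _ := rfl
  map_zero' := rfl
  map_add' _ _ := rfl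
  map_mul' _ _ := rfl
  map_star' _ := rfl

variable (B) in
/-- `lp → ℕ →ᵇ B` -/
def ofP : Hom (P B) (ℕ →ᵇ B) where
  toFun f := mkB (fun n => f n) ‖f‖ (fun n => apply_le f n)
  map_smul' _ _ := rfl
  map_zero' := rfl
  map_add' _ _ := rfl
  map_mul' _ _ := rfl
  map_star' _ := rfl

@[simp] theorem ofP_apply (f : P B) (n : ℕ) : ofP B f n = f n := rfl

@[simp] theorem toP_apply (f : ℕ →ᵇ B) (n : ℕ) : toP B f n = f n := rfl

theorem ofP_toP (f : ℕ →ᵇ B) : ofP B (toP B f) = f := by ext n; rfl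

theorem isSeqAlg_of {Q : Type} [NonUnitalCStarAlgebra Q] {q : Hom (ℕ →ᵇ B) Q}
    (h : IsExtension (incl B) q) : IsSeqAlg (q.comp (ofP B)) where
  surj := by
    intro z
    obtain ⟨f, rfl⟩ := h.2.1 z
    exact ⟨toP B f, by rw [NonUnitalStarAlgHom.comp_apply, ofP_toP]⟩
  ker := by
    intro x
    rw [NonUnitalStarAlgHom.comp_apply, h.2.2, mem_range_incl]
    rfl

variable (B) in
/-- the quotient `ℓ^∞(B) / c₀(B)` exists -/
theorem exists_infty : ∃ (Q : Type) (_ : NonUnitalCStarAlgebra Q) (q : Hom (ℕ →ᵇ B) Q),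
    IsExtension (incl B) q := by
  obtain ⟨Q, iQ, π, hπ⟩ := exists_seqAlg B
  refine ⟨Q, iQ, π.comp (toP B), incl_inj B, ?_, ?_⟩
  · intro z
    obtain ⟨f, rfl⟩ := hπ.surj z
    refine ⟨ofP B f, ?_⟩
    have : toP B (ofP B f) = f := by
      apply lp.ext
      funext n
      rfl
    rw [NonUnitalStarAlgHom.comp_apply, this]
  · intro f
    rw [NonUnitalStarAlgHom.comp_apply, hπ.ker, mem_range_incl]
    rfl

theorem infty_ker {Q : Type} [NonUnitalCStarAlgebra Q] {q : Hom (ℕ →ᵇ B) Q}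
    (h : IsExtension (incl B) q) (f : ℕ →ᵇ B) :
    q f = 0 ↔ Tendsto (fun n => ‖f n‖) atTop (𝓝 0) := by
  rw [h.2.2, mem_range_incl]

theorem infty_lt {Q : Type} [NonUnitalCStarAlgebra Q] {q : Hom (ℕ →ᵇ B) Q}
    (h : IsExtension (incl B) q) (f : ℕ →ᵇ B) (r : ℝ) (hr : ‖q f‖ < r) :
    ∀ᶠ n in atTop, ‖f n‖ < r := by
  have h1 := ev_lt (isSeqAlg_of h) (toP B f) r (by
    rw [NonUnitalStarAlgHom.comp_apply, ofP_toP]; exact hr)
  exact h1

theorem infty_le {Q : Type} [NonUnitalCStarAlgebra Q] {q : Hom (ℕ →ᵇ B) Q}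
    (h : IsExtension (incl B) q) (f : ℕ →ᵇ B) (r : ℝ) (hr : 0 ≤ r)
    (hf : ∀ ε > 0, ∀ᶠ n in atTop, ‖f n‖ < r + ε) : ‖q f‖ ≤ r := by
  have h1 := le_of_ev' (isSeqAlg_of h) (toP B f) r hr hf
  rwa [NonUnitalStarAlgHom.comp_apply, ofP_toP] at h1

end seqs

/-- **Reindexing** for `ℓ^∞ / c₀`: a map `e` of a separable algebra `E` into `(W_∞)_∞` which is the
constant embedding of `d : D → W_∞` on `j : D → E` gives `θ : E → W_∞` with `θ ∘ j = d`. -/
theorem reindexB {W Q Q' D E : Type} [NonUnitalCStarAlgebra W] [NonUnitalCStarAlgebra Q]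
    [NonUnitalCStarAlgebra Q'] [NonUnitalCStarAlgebra D] [NonUnitalCStarAlgebra E]
    [TopologicalSpace.SeparableSpace D] [TopologicalSpace.SeparableSpace E]
    {q : Hom (ℕ →ᵇ W) Q} {q' : Hom (ℕ →ᵇ Q) Q'} (hq : IsExtension (incl W) q)
    (hq' : IsExtension (incl Q) q') (j : Hom D E) (e : Hom E Q') (d : Hom D Q)
    (h : ∀ x, e (j x) = q' (dlt Q (d x))) : ∃ θ : Hom E Q, ∀ x, θ (j x) = d x := by
  refine reindex (isSeqAlg_of hq) (isSeqAlg_of hq') j e d ?_
  intro x
  rw [h, NonUnitalStarAlgHom.comp_apply]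
  rfl

/-! ## Multiplier isometries -/

section miso

variable {B : Type} [NonUnitalCStarAlgebra B]

theorem eq_of_star_mul {x y : B} (h : ∀ a : B, star a * x = star a * y) : x = y := by
  have h1 : star (x - y) * (x - y) = 0 := by rw [mul_sub, h, sub_self]
  exact sub_eq_zero.mp ((CStarRing.star_mul_self_eq_zero_iff _).mp h1)

theorem eq_of_star_mul' {x y : B} (h : ∀ b : B, star x * b = star y * b) : x = y := by
  have h1 : star (x - y) * (x - y) = 0 := by
    rw [star_sub, sub_mul, h, sub_self]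
  exact sub_eq_zero.mp ((CStarRing.star_mul_self_eq_zero_iff _).mp h1)

variable (t : MIso B)

theorem q_add (a b : B) : t.q (a + b) = t.q a + t.q b := by
  apply eq_of_star_mul
  intro c
  rw [mul_add, ← t.adj, ← t.adj, ← t.adj, mul_add]

theorem q_smul (c : ℂ) (b : B) : t.q (c • b) = c • t.q b := by
  apply eq_of_star_mul
  intro a
  rw [mul_smul_comm, ← t.adj, ← t.adj, mul_smul_comm]

theorem q_zero : t.q 0 = 0 := by
  have := q_smul t 0 0
  rwa [zero_smul, zero_smul] at this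

theorem q_sub (a b : B) : t.q (a - b) = t.q a - t.q b := by
  rw [sub_eq_add_neg, ← neg_one_smul ℂ b, q_add, q_smul, neg_one_smul, ← sub_eq_add_neg]

theorem q_mul (a b : B) : t.q (a * b) = t.q a * b := by
  apply eq_of_star_mul
  intro c
  rw [← t.adj, ← mul_assoc, ← mul_assoc, t.adj]

theorem p_add (a b : B) : t.p (a + b) = t.p a + t.p b := by
  apply eq_of_star_mul'
  intro c
  rw [t.adj, star_add, star_add, add_mul, add_mul, t.adj, t.adj]

theorem p_smul (c : ℂ) (b : B) : t.p (c • b) = c • t.p b := by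
  apply eq_of_star_mul'
  intro a
  rw [t.adj, star_smul, star_smul, smul_mul_assoc, smul_mul_assoc, t.adj]

theorem p_zero : t.p 0 = 0 := by
  have := p_smul t 0 0
  rwa [zero_smul, zero_smul] at this

theorem p_sub (a b : B) : t.p (a - b) = t.p a - t.p b := by
  rw [sub_eq_add_neg, ← neg_one_smul ℂ b, p_add, p_smul, neg_one_smul, ← sub_eq_add_neg]

theorem p_mul (a b : B) : t.p (a * b) = t.p a * b := by
  apply eq_of_star_mul'
  intro c
  rw [t.adj, star_mul, star_mul, mul_assoc, mul_assoc, t.adj]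

theorem p_star_mul (a b : B) : star (t.p a) * t.p b = star a * b := by
  rw [t.adj, t.iso]

theorem norm_p (a : B) : ‖t.p a‖ = ‖a‖ := by
  have h1 : ‖t.p a‖ * ‖t.p a‖ = ‖a‖ * ‖a‖ := by
    rw [← CStarRing.norm_star_mul_self, ← CStarRing.norm_star_mul_self, p_star_mul]
  exact (mul_self_inj (norm_nonneg _) (norm_nonneg _)).mp h1

theorem norm_q_le (b : B) : ‖t.q b‖ ≤ ‖b‖ := by
  have h1 : ‖t.q b‖ * ‖t.q b‖ ≤ ‖t.q b‖ * ‖b‖ := by
    rw [← CStarRing.norm_star_mul_self, ← t.adj]
    refine (norm_mul_le _ _).trans ?_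
    rw [norm_star, norm_p]
  rcases (norm_nonneg (t.q b)).eq_or_lt with h | h
  · rw [← h]; exact norm_nonneg b
  · exact le_of_mul_le_mul_left h1 h

/-- conjugation by a multiplier isometry -/
def Ad : Hom B B where
  toFun b := t.p (star (t.p (star b)))
  map_smul' c b := by
    rw [star_smul, p_smul, star_smul, p_smul, star_star]
    rfl
  map_zero' := by rw [star_zero, p_zero, star_zero, p_zero]
  map_add' a b := by rw [star_add, p_add, star_add, p_add]
  map_mul' a b := by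
    rw [star_mul, p_mul, star_mul, star_star, ← p_mul, p_star_mul, star_star]
  map_star' b := by
    have h : ∀ c, star (star (t.p (star (t.p (star (star b)))))) * c =
        star (t.p (star (t.p (star b)))) * c := by
      intro c
      rw [star_star, star_star, t.adj, star_star, ← p_mul, ← p_mul, t.adj]
    have := congrArg star (eq_of_star_mul' h)
    rwa [star_star] at this

theorem Ad_isAd : IsAd t (Ad t) := fun _ => rfl

@[simp] theorem Ad_apply (b : B) : Ad t b = t.p (star (t.p (star b))) := rfl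

/-- the coordinatewise action on bounded sequences -/
def misoB : MIso (ℕ →ᵇ B) where
  p f := mkB (fun n => t.p (f n)) ‖f‖ (fun n => by rw [norm_p]; exact f.norm_coe_le_norm n)
  q f := mkB (fun n => t.q (f n)) ‖f‖ (fun n => (norm_q_le t _).trans (f.norm_coe_le_norm n))
  adj f g := by ext n; exact t.adj (f n) (g n)
  iso f := by ext n; exact t.iso (f n)

@[simp] theorem misoB_p (f : ℕ →ᵇ B) (n : ℕ) : (misoB t).p f n = t.p (f n) := rfl

@[simp] theorem misoB_q (f : ℕ →ᵇ B) (n : ℕ) : (misoB t).q f n = t.q (f n) := rfl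

/-- the coordinatewise action on null sequences -/
def misoC : MIso C₀(ℕ, B) where
  p f := mkC (fun n => t.p (f n)) (by
    rw [tendsto_zero_iff_norm_tendsto_zero]
    simpa only [norm_p] using tendsto_c_norm f)
  q f := mkC (fun n => t.q (f n)) (by
    rw [tendsto_zero_iff_norm_tendsto_zero]
    exact squeeze_zero (fun n => norm_nonneg _) (fun n => norm_q_le t _) (tendsto_c_norm f))
  adj f g := by ext n; exact t.adj (f n) (g n)
  iso f := by ext n; exact t.iso (f n)

@[simp] theorem misoC_p (f : C₀(ℕ, B)) (n : ℕ) : (misoC t).p f n = t.p (f n) := rfl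

@[simp] theorem misoC_q (f : C₀(ℕ, B)) (n : ℕ) : (misoC t).q f n = t.q (f n) := rfl

theorem ker_approx {Q : Type} [NonUnitalCStarAlgebra Q] (π : Hom B Q) (b : B) (hb : π b = 0)
    (ε : ℝ) (hε : 0 < ε) : ∃ e : B, π e = 0 ∧ ‖b - b * e‖ < ε := by
  have hI := kerI_isId π
  obtain ⟨e, he, -, -, h⟩ := Pool.Agent.Helper42.Uct.exists_unit (kerI π) hI.closed hI.ideal
    hI.star b hb ε hε
  exact ⟨e, he, h⟩

theorem p_ker {Q : Type} [NonUnitalCStarAlgebra Q] (π : Hom B Q) (b : B) (hb : π b = 0) :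
    π (t.p b) = 0 := by
  rw [← norm_le_zero_iff]
  apply le_of_forall_pos_le_add
  intro ε hε
  obtain ⟨e, he, h⟩ := ker_approx π b hb ε hε
  have h1 : π (t.p b) = π (t.p (b - b * e)) := by
    rw [p_sub, p_mul, map_sub, map_mul, he, mul_zero, sub_zero]
  rw [h1, zero_add]
  exact (NonUnitalStarAlgHom.norm_apply_le π _).trans (by rw [norm_p]; exact h.le)

theorem q_ker {Q : Type} [NonUnitalCStarAlgebra Q] (π : Hom B Q) (b : B) (hb : π b = 0) :
    π (t.q b) = 0 := by
  rw [← norm_le_zero_iff]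
  apply le_of_forall_pos_le_add
  intro ε hε
  obtain ⟨e, he, h⟩ := ker_approx π b hb ε hε
  have h1 : π (t.q b) = π (t.q (b - b * e)) := by
    rw [q_sub, q_mul, map_sub, map_mul, he, mul_zero, sub_zero]
  rw [h1, zero_add]
  exact (NonUnitalStarAlgHom.norm_apply_le π _).trans ((norm_q_le t _).trans h.le)

/-- the action on a quotient -/
def misoQ {Q : Type} [NonUnitalCStarAlgebra Q] (π : Hom B Q) (hπ : Function.Surjective π) :
    MIso Q where
  p z := π (t.p (Function.surjInv hπ z))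
  q z := π (t.q (Function.surjInv hπ z))
  adj a b := by
    obtain ⟨b', hb⟩ : ∃ b', b' = Function.surjInv hπ b := ⟨_, rfl⟩
    obtain ⟨a', ha⟩ : ∃ a', a' = Function.surjInv hπ a := ⟨_, rfl⟩
    have h1 : π b' = b := by rw [hb, Function.surjInv_eq hπ]
    have h2 : π a' = a := by rw [ha, Function.surjInv_eq hπ]
    rw [← hb, ← ha, ← h1, ← h2, ← map_star, ← map_star, ← map_mul, ← map_mul, t.adj]
  iso a := by
    have h1 : π (Function.surjInv hπ (π (t.p (Function.surjInv hπ a))) -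
        t.p (Function.surjInv hπ a)) = 0 := by
      rw [map_sub, Function.surjInv_eq hπ, sub_self]
    have h2 := q_ker t π _ h1
    rw [q_sub, t.iso, map_sub, Function.surjInv_eq hπ a] at h2
    exact sub_eq_zero.mp h2

theorem misoQ_p {Q : Type} [NonUnitalCStarAlgebra Q] (π : Hom B Q)
    (hπ : Function.Surjective π) (b : B) : (misoQ t π hπ).p (π b) = π (t.p b) := by
  have h1 : π (Function.surjInv hπ (π b) - b) = 0 := by
    rw [map_sub, Function.surjInv_eq hπ, sub_self]
  have h2 := p_ker t π _ h1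
  rw [p_sub, map_sub] at h2
  exact sub_eq_zero.mp h2

theorem misoQ_q {Q : Type} [NonUnitalCStarAlgebra Q] (π : Hom B Q)
    (hπ : Function.Surjective π) (b : B) : (misoQ t π hπ).q (π b) = π (t.q b) := by
  have h1 : π (Function.surjInv hπ (π b) - b) = 0 := by
    rw [map_sub, Function.surjInv_eq hπ, sub_self]
  have h2 := q_ker t π _ h1
  rw [q_sub, map_sub] at h2
  exact sub_eq_zero.mp h2

end miso

theorem room_bcf {B : Type} [NonUnitalCStarAlgebra B] (h : Room B) : Room (ℕ →ᵇ B) := by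
  obtain ⟨t₀, t₁, h⟩ := h
  exact ⟨misoB t₀, misoB t₁, fun f => by ext n; exact h (f n)⟩

theorem room_c0 {B : Type} [NonUnitalCStarAlgebra B] (h : Room B) : Room C₀(ℕ, B) := by
  obtain ⟨t₀, t₁, h⟩ := h
  exact ⟨misoC t₀, misoC t₁, fun f => by ext n; exact h (f n)⟩

theorem room_quot {B Q : Type} [NonUnitalCStarAlgebra B] [NonUnitalCStarAlgebra Q] (h : Room B)
    (π : Hom B Q) (hπ : Function.Surjective π) : Room Q := by
  obtain ⟨t₀, t₁, h⟩ := h
  refine ⟨misoQ t₀ π hπ, misoQ t₁ π hπ, fun a => ?_⟩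
  obtain ⟨b, rfl⟩ := hπ a
  rw [misoQ_p, misoQ_q, h, map_zero]

end

end Pool.Agent.Helper39.FU
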