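import Pool.Agent.Helper39.FU.Seq

/-!
# Small representatives imply the universal coefficient theorem (project FU, MP_d97caa_an)

`uct_of_small`: if the classes of `G_i(A, B)` for `B` with `G_*(ℂ, B) = 0` have representatives which
are arbitrarily small on finite sets, then `A` satisfies the UCT.
-/

set_option autoImplicit false

open scoped ENNReal Topology ZeroAtInfty BoundedContinuousFunction
open Filter TopologicalSpace

namespace Pool.Agent.Helper39.FU

open Pool.Agent.Helper39.CarDefs Pool.Agent.Helper93.FU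

noncomputable section

/-! ## Shifts on null sequences -/

section shifts

variable (B : Type) [NonUnitalCStarAlgebra B]

/-- the left shift -/
def shL : Hom C₀(ℕ, B) C₀(ℕ, B) where
  toFun f := mkC (fun n => f (n + 1)) ((tendsto_add_atTop_iff_nat 1).mpr (tendsto_c f))
  map_smul' _ _ := rfl
  map_zero' := rfl
  map_add' _ _ := rfl
  map_mul' _ _ := rfl
  map_star' _ := rfl

@[simp] theorem shL_apply (f : C₀(ℕ, B)) (n : ℕ) : shL B f n = f (n + 1) := rfl

/-- the underlying map of the right shift -/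
def rsh (f : ℕ → B) : ℕ → B
  | 0 => 0
  | n + 1 => f n

/-- the right shift -/
def shR : Hom C₀(ℕ, B) C₀(ℕ, B) where
  toFun f := mkC (rsh B f) ((tendsto_add_atTop_iff_nat 1).mp (tendsto_c f))
  map_smul' c f := by
    ext n
    cases n
    · exact (smul_zero c).symm
    · rfl
  map_zero' := by
    ext n
    cases n <;> rfl
  map_add' f g := by
    ext n
    cases n
    · exact (add_zero (0 : B)).symm
    · rfl
  map_mul' f g := by
    ext n
    cases n
    · exact (mul_zero (0 : B)).symm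
    · rfl
  map_star' f := by
    ext n
    cases n
    · exact (star_zero B).symm
    · rfl

@[simp] theorem shR_zero (f : C₀(ℕ, B)) : shR B f 0 = 0 := rfl

@[simp] theorem shR_succ (f : C₀(ℕ, B)) (n : ℕ) : shR B f (n + 1) = f n := rfl

/-- sequences concentrated at `0` -/
def sng (b : B) : ℕ → B
  | 0 => b
  | _ + 1 => 0

/-- sequences concentrated at `0` -/
def iz : Hom B C₀(ℕ, B) where
  toFun b := mkC (sng B b) ((tendsto_add_atTop_iff_nat 1).mp tendsto_const_nhds)
  map_smul' c b := by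
    ext n
    cases n
    · rfl
    · exact (smul_zero c).symm
  map_zero' := by
    ext n
    cases n <;> rfl
  map_add' f g := by
    ext n
    cases n
    · rfl
    · exact (add_zero (0 : B)).symm
  map_mul' f g := by
    ext n
    cases n
    · rfl
    · exact (mul_zero (0 : B)).symm
  map_star' f := by
    ext n
    cases n
    · rfl
    · exact (star_zero B).symm

@[simp] theorem iz_zero (b : B) : iz B b 0 = b := rfl

@[simp] theorem iz_succ (b : B) (n : ℕ) : iz B b (n + 1) = 0 := rfl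

theorem shL_shR (f : C₀(ℕ, B)) : shL B (shR B f) = f := by
  ext n
  rfl

theorem shL_iz (b : B) : shL B (iz B b) = 0 := by
  ext n
  rfl

/-- `0 → C₀(ℕ, B) → C₀(ℕ, B) → B → 0` -/
theorem ext_shR : IsExtension (shR B) (evC B 0) := by
  refine ⟨?_, ?_, ?_⟩
  · intro f g h
    rw [← shL_shR B f, h, shL_shR]
  · intro b
    exact ⟨iz B b, rfl⟩
  · intro f
    constructor
    · intro h
      refine ⟨shL B f, ?_⟩
      ext n
      cases n
      · exact h.symm
      · rfl
    · rintro ⟨g, rfl⟩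
      rfl

/-- `0 → B → C₀(ℕ, B) → C₀(ℕ, B) → 0` -/
theorem ext_iz : IsExtension (iz B) (shL B) := by
  refine ⟨?_, ?_, ?_⟩
  · intro a b h
    exact congrArg (fun f : C₀(ℕ, B) => f 0) h
  · intro f
    exact ⟨shR B f, shL_shR B f⟩
  · intro f
    constructor
    · intro h
      refine ⟨f 0, ?_⟩
      ext n
      cases n
      · rfl
      · exact (congrArg (fun g : C₀(ℕ, B) => g _) h).symm
    · rintro ⟨b, rfl⟩
      exact shL_iz B b

end shifts

/-! ## The infinite direct sum -/

section sums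

variable {C B : Type} [NonUnitalCStarAlgebra C] [NonUnitalCStarAlgebra B]

/-- the sum of two orthogonal *-homomorphisms -/
def osum (f g : Hom C B) (h : ∀ a b, f a * g b = 0) : Hom C B where
  toFun a := f a + g a
  map_smul' c a := by rw [map_smul, map_smul, smul_add]; rfl
  map_zero' := by rw [map_zero, map_zero, add_zero]
  map_add' a b := by rw [map_add, map_add]; abel
  map_mul' a b := by
    have h' : g a * f b = 0 := by
      have := congrArg star (h (star b) (star a))
      rwa [star_mul, map_star, map_star, star_star, star_star, star_zero] at this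
    rw [map_mul, map_mul, add_mul, mul_add, mul_add, h, h', add_zero, zero_add]
  map_star' a := by rw [map_star, map_star, star_add]

theorem limHom (F : ℕ → Hom C B) (s : C → B)
    (h : ∀ a, Tendsto (fun n => F n a) atTop (𝓝 (s a))) : ∃ σ : Hom C B, ∀ a, σ a = s a := by
  refine ⟨{ toFun := s
            map_smul' := fun c a => ?_
            map_zero' := ?_
            map_add' := fun a b => ?_
            map_mul' := fun a b => ?_
            map_star' := fun a => ?_ }, fun _ => rfl⟩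
  · refine tendsto_nhds_unique (h (c • a)) ?_
    simp only [map_smul]
    exact (h a).const_smul c
  · refine tendsto_nhds_unique (h 0) ?_
    simp only [map_zero]
    exact tendsto_const_nhds
  · refine tendsto_nhds_unique (h (a + b)) ?_
    simp only [map_add]
    exact (h a).add (h b)
  · refine tendsto_nhds_unique (h (a * b)) ?_
    simp only [map_mul]
    exact (h a).mul (h b)
  · refine tendsto_nhds_unique (h (star a)) ?_
    simp only [map_star]
    exact (h a).star

variable (t₀ t₁ : MIso B) (ht : ∀ a, t₀.q (t₁.p a) = 0)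

include ht in
theorem Ad_mul_Ad (a b : B) : Ad t₀ a * Ad t₁ b = 0 := by
  have h : Ad t₀ a = star (Ad t₀ (star a)) := by rw [map_star, star_star]
  rw [h, Ad_apply, Ad_apply, t₀.adj, ht, mul_zero]

/-- the finite sums -/
def sg : ℕ → Hom C₀(ℕ, B) B
  | 0 => 0
  | N + 1 => osum ((Ad t₀).comp (evC B 0)) ((Ad t₁).comp ((sg N).comp (shL B)))
      (fun _ _ => Ad_mul_Ad t₀ t₁ ht _ _)

theorem sg_zero (f : C₀(ℕ, B)) : sg t₀ t₁ ht 0 f = 0 := rfl

theorem sg_succ (N : ℕ) (f : C₀(ℕ, B)) :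
    sg t₀ t₁ ht (N + 1) f = Ad t₀ (f 0) + Ad t₁ (sg t₀ t₁ ht N (shL B f)) := rfl

theorem sg_eq (K : ℕ) : ∀ (N M : ℕ) (f : C₀(ℕ, B)), K ≤ N → K ≤ M → (∀ n, K ≤ n → f n = 0) →
    sg t₀ t₁ ht N f = sg t₀ t₁ ht M f := by
  induction K with
  | zero =>
    intro N M f _ _ hf
    have : f = 0 := by
      ext n
      exact hf n (Nat.zero_le n)
    rw [this, map_zero, map_zero]
  | succ K ih =>
    intro N M f hN hM hf
    obtain ⟨N, rfl⟩ : ∃ N', N = N' + 1 := ⟨N - 1, by omega⟩
    obtain ⟨M, rfl⟩ : ∃ M', M = M' + 1 := ⟨M - 1, by omega⟩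
    rw [sg_succ, sg_succ, ih N M (shL B f) (by omega) (by omega)
      (fun n hn => hf (n + 1) (by omega))]

/-- truncation -/
def trn (K : ℕ) (f : C₀(ℕ, B)) : C₀(ℕ, B) :=
  mkC (fun n => if n < K then f n else 0) (by
    refine tendsto_const_nhds.congr' ?_
    filter_upwards [eventually_ge_atTop K] with n hn
    rw [if_neg (not_lt.mpr hn)])

theorem sg_cauchy (f : C₀(ℕ, B)) : CauchySeq fun N => sg t₀ t₁ ht N f := by
  rw [Metric.cauchySeq_iff]
  intro ε hε
  have h1 := tendsto_c_norm f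
  rw [Metric.tendsto_atTop] at h1
  obtain ⟨K, hK⟩ := h1 (ε / 3) (by linarith)
  have h2 : ‖f - trn K f‖ ≤ ε / 3 := by
    apply norm_c_le _ _ (by linarith)
    intro n
    change ‖f n - (if n < K then f n else 0)‖ ≤ ε / 3
    split_ifs with hn
    · rw [sub_self, norm_zero]; linarith
    · rw [sub_zero]
      have := hK n (not_lt.mp hn)
      rw [dist_zero_right, norm_norm] at this
      exact this.le
  refine ⟨K, fun N hN M hM => ?_⟩
  have h3 : sg t₀ t₁ ht N (trn K f) = sg t₀ t₁ ht M (trn K f) :=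
    sg_eq t₀ t₁ ht K N M _ hN hM (fun n hn => if_neg (not_lt.mpr hn))
  have h4 : sg t₀ t₁ ht N f - sg t₀ t₁ ht M f =
      sg t₀ t₁ ht N (f - trn K f) - sg t₀ t₁ ht M (f - trn K f) := by
    rw [map_sub, map_sub, h3]; abel
  rw [dist_eq_norm, h4]
  have h5 := NonUnitalStarAlgHom.norm_apply_le (sg t₀ t₁ ht N) (f - trn K f)
  have h6 := NonUnitalStarAlgHom.norm_apply_le (sg t₀ t₁ ht M) (f - trn K f)
  have h7 := norm_sub_le (sg t₀ t₁ ht N (f - trn K f)) (sg t₀ t₁ ht M (f - trn K f))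
  linarith

include ht in
/-- **The infinite direct sum** `f ↦ ∑ t₁ⁿ t₀ f(n) t₀* t₁*ⁿ`. -/
theorem exists_sum : ∃ σ : Hom C₀(ℕ, B) B,
    ∀ f, σ f = Ad t₀ (f 0) + Ad t₁ (σ (shL B f)) := by
  choose s hs using fun f => cauchySeq_tendsto_of_complete (sg_cauchy t₀ t₁ ht f)
  obtain ⟨σ, hσ⟩ := limHom (sg t₀ t₁ ht) s hs
  refine ⟨σ, fun f => ?_⟩
  rw [hσ, hσ]
  refine tendsto_nhds_unique ((tendsto_add_atTop_iff_nat 1).mpr (hs f)) ?_
  simp only [sg_succ]
  exact tendsto_const_nhds.add (((cont (Ad t₁)).tendsto _).comp (hs (shL B f)))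

end sums

/-! ## The theory -/

section theory

variable {𝒩 : Cls} {T : Biv}

theorem push_comp (hT : IsBiv 𝒩 T) {i : ZMod 2} {A B B' B'' : Type} [NonUnitalCStarAlgebra A]
    [NonUnitalCStarAlgebra B] [NonUnitalCStarAlgebra B'] [NonUnitalCStarAlgebra B'']
    (hA : 𝒩 A) (f : Hom B B') (g : Hom B' B'') (h : Hom B B'') (hc : ∀ b, h b = g (f b))
    (z : T.G i A B) : T.push i A h z = T.push i A g (T.push i A f z) :=
  hT.functorial.2.2.1 i A B B' B'' hA f g h hc z

theorem push_id (hT : IsBiv 𝒩 T) {i : ZMod 2} {A B : Type} [NonUnitalCStarAlgebra A]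
    [NonUnitalCStarAlgebra B] (hA : 𝒩 A) (g : Hom B B) (hg : ∀ b, g b = b)
    (z : T.G i A B) : T.push i A g z = z :=
  (hT.functorial.1 i A B hA).2 g hg z

theorem push_of_id (hT : IsBiv 𝒩 T) {i : ZMod 2} {A B B' : Type} [NonUnitalCStarAlgebra A]
    [NonUnitalCStarAlgebra B] [NonUnitalCStarAlgebra B'] (hA : 𝒩 A) (f : Hom B B')
    (g : Hom B' B) (h : ∀ b, g (f b) = b) (z : T.G i A B) :
    T.push i A g (T.push i A f z) = z := by
  have h1 := push_comp hT hA f g (g.comp f) (fun _ => rfl) z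
  rw [← h1]
  exact push_id hT hA _ h z

theorem exists_succ (i : ZMod 2) : ∃ j : ZMod 2, i = j + 1 := ⟨i - 1, by ring⟩

/-- injectivity and surjectivity of the map of an ideal if the quotient is trivial -/
theorem bij_of_zero (hT : IsBiv 𝒩 T) {A J E Q : Type} [NonUnitalCStarAlgebra A]
    [NonUnitalCStarAlgebra J] [NonUnitalCStarAlgebra E] [NonUnitalCStarAlgebra Q] (hA : 𝒩 A)
    {u : Hom J E} {q : Hom E Q} (h : IsExtension u q) (hz : T.Zero A Q) (i : ZMod 2) :
    Function.Bijective (T.push i A u) := by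
  constructor
  · rw [injective_iff_map_eq_zero]
    obtain ⟨j, rfl⟩ := exists_succ i
    obtain ⟨-, d, -, h2⟩ := hT.sixB j A J E Q hA u q h
    intro x hx
    obtain ⟨w, rfl⟩ := (h2 x).mp hx
    rw [hz j w, map_zero]
  · intro y
    exact ((hT.sixB i A J E Q hA u q h).1 y).mp (hz i _)

/-- `G_*(A, Q) = 0` if `G_*(A, J) = G_*(A, E) = 0` -/
theorem zero_quot (hT : IsBiv 𝒩 T) {A J E Q : Type} [NonUnitalCStarAlgebra A]
    [NonUnitalCStarAlgebra J] [NonUnitalCStarAlgebra E] [NonUnitalCStarAlgebra Q] (hA : 𝒩 A)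
    {u : Hom J E} {q : Hom E Q} (h : IsExtension u q) (hJ : T.Zero A J) (hE : T.Zero A E) :
    T.Zero A Q := by
  intro i z
  obtain ⟨-, d, h1, -⟩ := hT.sixB i A J E Q hA u q h
  obtain ⟨y, rfl⟩ := (h1 z).mp (hJ (i + 1) (d z))
  rw [hE i y, map_zero]

/-- `B_∞` is in the class of the algebras with `G_*(ℂ, B) = 0` -/
theorem zero_infty (hT : IsBiv 𝒩 T) {B Q : Type} [NonUnitalCStarAlgebra B]
    [NonUnitalCStarAlgebra Q] (hR : Room B) (hB : T.Zero ℂ B) {q : Hom (ℕ →ᵇ B) Q}
    (hq : IsExtension (incl B) q) : Room Q ∧ T.Zero ℂ Q := by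
  refine ⟨room_quot (room_bcf hR) q hq.2.1, zero_quot hT hT.cls.scalars hq ?_ ?_⟩
  · intro i z
    exact hT.nullB i B z (fun n => hB i _)
  · intro i z
    exact hT.prodB i ℂ B hT.cls.scalars hR z (fun n => hB i _)

/-- the coordinates of a class of constant sequences -/
theorem push_evB_dlt (hT : IsBiv 𝒩 T) {i : ZMod 2} {A B : Type} [NonUnitalCStarAlgebra A]
    [NonUnitalCStarAlgebra B] (hA : 𝒩 A) (z : T.G i A B) (n : ℕ) :
    T.push i A (evB B n) (T.push i A (dlt B) z) = z :=
  push_of_id hT hA _ _ (fun _ => rfl) z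

theorem push_evB_incl (hT : IsBiv 𝒩 T) {i : ZMod 2} {A B : Type} [NonUnitalCStarAlgebra A]
    [NonUnitalCStarAlgebra B] (hA : 𝒩 A) (x : T.G i A C₀(ℕ, B)) (n : ℕ) :
    T.push i A (evB B n) (T.push i A (incl B) x) = T.push i A (evC B n) x :=
  (push_comp hT hA _ _ _ (fun _ => rfl) x).symm

/-- classes with values in bounded sequences are determined by the coordinates -/
theorem ext_prod (hT : IsBiv 𝒩 T) {i : ZMod 2} {A B : Type} [NonUnitalCStarAlgebra A]
    [NonUnitalCStarAlgebra B] (hA : 𝒩 A) (hR : Room B) (x y : T.G i A (ℕ →ᵇ B))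
    (h : ∀ n, T.push i A (evB B n) x = T.push i A (evB B n) y) : x = y := by
  rw [← sub_eq_zero]
  apply hT.prodB i A B hA hR
  intro n
  rw [map_sub, h, sub_self]

/-! ### The swindle -/

/-- If the classes with values in `B_∞` vanish then so do those with values in `B`. -/
theorem zero_of_infty (hT : IsBiv 𝒩 T) {A B Q : Type} [NonUnitalCStarAlgebra A]
    [NonUnitalCStarAlgebra B] [NonUnitalCStarAlgebra Q] (hA : 𝒩 A) (hR : Room B)
    {q : Hom (ℕ →ᵇ B) Q} (hq : IsExtension (incl B) q) (hz : T.Zero A Q) : T.Zero A B := by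
  intro i z
  have hbij := bij_of_zero hT hA hq hz i
  obtain ⟨x, hx⟩ := hbij.2 (T.push i A (dlt B) z)
  have hxn : ∀ n, T.push i A (evC B n) x = z := by
    intro n
    rw [← push_evB_incl hT hA, hx, push_evB_dlt hT hA]
  have hL : T.push i A (shL B) x = x := by
    apply hbij.1
    apply ext_prod hT hA hR
    intro n
    rw [push_evB_incl hT hA, push_evB_incl hT hA, hxn,
      ← push_comp hT hA (shL B) (evC B n) (evC B (n + 1)) (fun _ => rfl), hxn]
  have h1 : T.push i A (evC B 0) (x - T.push i A (iz B) z) = 0 := by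
    rw [map_sub, hxn, push_of_id hT hA (iz B) (evC B 0) (fun _ => rfl), sub_self]
  obtain ⟨w, hw⟩ := ((hT.sixB i A _ _ _ hA (shR B) (evC B 0) (ext_shR B)).1 _).mp h1
  have h2 : T.push i A (shL B) (T.push i A (iz B) z) = 0 :=
    ((hT.sixB i A _ _ _ hA (iz B) (shL B) (ext_iz B)).1 _).mpr ⟨z, rfl⟩
  have h3 : w = x := by
    have h4 := congrArg (T.push i A (shL B)) hw
    rw [push_of_id hT hA (shR B) (shL B) (shL_shR B), map_sub, h2, sub_zero, hL] at h4
    exact h4
  rw [h3] at hw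
  obtain ⟨t₀, t₁, ht⟩ := hR
  obtain ⟨σ, hσ⟩ := exists_sum t₀ t₁ ht
  have h5 := congrArg (T.push i A σ) hw
  rw [map_sub] at h5
  have h6 : T.push i A σ (T.push i A (iz B) z) = z := by
    rw [← push_comp hT hA (iz B) σ (Ad t₀) (fun b => by
      rw [hσ, iz_zero, shL_iz, map_zero, map_zero, add_zero])]
    exact hT.innB i A B hA t₀ _ (Ad_isAd t₀) z
  have h7 : T.push i A σ (T.push i A (shR B) x) = T.push i A σ x := by
    rw [← push_comp hT hA (shR B) σ ((Ad t₁).comp σ) (fun f => by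
      rw [hσ, shL_shR, shR_zero, map_zero, zero_add]; rfl),
      push_comp hT hA σ (Ad t₁) ((Ad t₁).comp σ) (fun _ => rfl)]
    exact hT.innB i A B hA t₁ _ (Ad_isAd t₁) _
  rw [h6, h7] at h5
  have h8 : T.push i A σ x - (T.push i A σ x - z) = 0 := by
    rw [← h5]; exact sub_self _
  rwa [sub_sub_cancel] at h8

/-! ### Small representatives -/

/-- a sequence of homomorphisms which tends to zero pointwise -/
def homC {E B : Type} [NonUnitalCStarAlgebra E] [NonUnitalCStarAlgebra B] (g : ℕ → Hom E B)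
    (h : ∀ f, Tendsto (fun n => g n f) atTop (𝓝 0)) : Hom E C₀(ℕ, B) where
  toFun f := mkC (fun n => g n f) (h f)
  map_smul' c f := by ext n; exact map_smul (g n) c f
  map_zero' := by ext n; exact map_zero (g n)
  map_add' f f' := by ext n; exact map_add (g n) f f'
  map_mul' f f' := by ext n; exact map_mul (g n) f f'
  map_star' f := by ext n; exact map_star (g n) f

theorem tendsto_of_dense {E B : Type} [NonUnitalCStarAlgebra E] [NonUnitalCStarAlgebra B]
    [SeparableSpace E] (g : ℕ → Hom E B)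
    (h : ∀ n, ∀ m ≤ n, ‖g n (denseSeq E m)‖ < 1 / ((n : ℝ) + 1)) (f : E) :
    Tendsto (fun n => g n f) atTop (𝓝 0) := by
  rw [Metric.tendsto_atTop]
  intro ε hε
  obtain ⟨m, hm⟩ := (denseRange_denseSeq E).exists_dist_lt f (half_pos hε)
  obtain ⟨k, hk⟩ := exists_nat_one_div_lt (half_pos hε)
  refine ⟨max m k, fun n hn => ?_⟩
  have h1 := h n m ((le_max_left _ _).trans hn)
  have h2 : 1 / ((n : ℝ) + 1) ≤ 1 / ((k : ℝ) + 1) := by
    have : (k : ℝ) ≤ n := by exact_mod_cast (le_max_right m k).trans hn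
    exact one_div_le_one_div_of_le (by positivity) (by linarith)
  have h3 : ‖g n f - g n (denseSeq E m)‖ ≤ ‖f - denseSeq E m‖ := by
    rw [← map_sub]
    exact NonUnitalStarAlgHom.norm_apply_le (g n) _
  rw [dist_eq_norm] at hm ⊢
  have h4 : ‖g n f - 0‖ ≤ ‖g n f - g n (denseSeq E m)‖ + ‖g n (denseSeq E m)‖ := by
    rw [sub_zero]
    have := norm_add_le (g n f - g n (denseSeq E m)) (g n (denseSeq E m))
    rwa [sub_add_cancel] at this
  linarith

/-- If a class has small representatives then its image in `B_∞` vanishes. -/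
theorem infty_zero_of_small (hT : IsBiv 𝒩 T) {i : ZMod 2} {A E B Q : Type}
    [NonUnitalCStarAlgebra A] [NonUnitalCStarAlgebra E] [NonUnitalCStarAlgebra B]
    [NonUnitalCStarAlgebra Q] [SeparableSpace E] (hA : 𝒩 A)
    (r : ∀ (B : Type) [NonUnitalCStarAlgebra B], Hom E B → T.G i A B)
    (hr : ∀ (B B' : Type) [NonUnitalCStarAlgebra B] [NonUnitalCStarAlgebra B'] (g : Hom B B')
      (f : Hom E B) (h : Hom E B'), IsCompHom f g h → T.push i A g (r B f) = r B' h)
    (hR : Room B) {q : Hom (ℕ →ᵇ B) Q} (hq : IsExtension (incl B) q) (z : T.G i A B)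
    (hz : ∀ (S : Finset E) (ε : ℝ), 0 < ε → ∃ g : Hom E B, r B g = z ∧ ∀ f ∈ S, ‖g f‖ < ε) :
    T.push i A q (T.push i A (dlt B) z) = 0 := by
  classical
  choose g hg1 hg2 using fun n : ℕ => hz ((Finset.range (n + 1)).image (denseSeq E))
    (1 / ((n : ℝ) + 1)) (by positivity)
  have hg3 := tendsto_of_dense g (fun n m hm => hg2 n _
    (Finset.mem_image_of_mem _ (Finset.mem_range.mpr (by omega))))
  have h1 : T.push i A (incl B) (r _ (homC g hg3)) = T.push i A (dlt B) z := by
    apply ext_prod hT hA hR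
    intro n
    rw [push_evB_dlt hT hA, push_evB_incl hT hA, hr _ _ (evC B n) (homC g hg3) (g n)
      (fun _ => rfl), hg1]
  exact ((hT.sixB i A _ _ _ hA (incl B) q hq).1 _).mpr ⟨_, h1⟩

/-- If classes vanish in the sequence algebras then `G_*(A, B_∞) = 0`. -/
theorem zero_infty_of (hT : IsBiv 𝒩 T) {A B Q Q' : Type} [NonUnitalCStarAlgebra A]
    [NonUnitalCStarAlgebra B] [NonUnitalCStarAlgebra Q] [NonUnitalCStarAlgebra Q'] (hA : 𝒩 A)
    {q : Hom (ℕ →ᵇ B) Q} (hq : IsExtension (incl B) q) {q' : Hom (ℕ →ᵇ Q) Q'}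
    (hq' : IsExtension (incl Q) q')
    (h : ∀ (i : ZMod 2) (z : T.G i A Q), T.push i A q' (T.push i A (dlt Q) z) = 0) :
    T.Zero A Q := by
  intro i z
  obtain ⟨D, _, _, u, y, hu, hy⟩ := (hT.supp i A Q hA).1 z
  have h1 : IsInjHom ((q'.comp (dlt Q)).comp u) := by
    intro a b hab
    apply hu
    rw [← sub_eq_zero]
    have h2 : q' (dlt Q (u a - u b)) = 0 := by
      have h3 : q' (dlt Q (u a)) = q' (dlt Q (u b)) := hab
      rw [map_sub, map_sub, h3, sub_self]
    rw [infty_ker hq'] at h2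
    have h4 := tendsto_nhds_unique h2 (tendsto_const_nhds : Tendsto
      (fun _ : ℕ => ‖u a - u b‖) atTop (𝓝 ‖u a - u b‖))
    exact norm_eq_zero.mp h4.symm
  have h2 : T.push i A ((q'.comp (dlt Q)).comp u) y = 0 := by
    rw [push_comp hT hA u (q'.comp (dlt Q)) _ (fun _ => rfl) y, hy,
      push_comp hT hA (dlt Q) q' _ (fun _ => rfl) z, h]
  obtain ⟨D', _, _, j, u', hu', hj, hz'⟩ := (hT.supp i A Q' hA).2 D _ h1 y h2
  obtain ⟨θ, hθ⟩ := reindexB hq hq' j u' u (fun x => (hj x).symm)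
  rw [← hy, push_comp hT hA j θ u (fun x => (hθ x).symm) y, hz', map_zero]

/-- **Small representatives imply the UCT.** -/
theorem uct_of_small (hT : IsBiv 𝒩 T) (A : Type) [NonUnitalCStarAlgebra A] (hA : 𝒩 A)
    (Q : ZMod 2 → Type) [∀ i, NonUnitalCStarAlgebra (Q i)] [∀ i, SeparableSpace (Q i)]
    (r : ∀ (i : ZMod 2) (B : Type) [NonUnitalCStarAlgebra B], Hom (Q i) B → T.G i A B)
    (hr : ∀ (i : ZMod 2) (B B' : Type) [NonUnitalCStarAlgebra B] [NonUnitalCStarAlgebra B']
      (g : Hom B B') (f : Hom (Q i) B) (h : Hom (Q i) B'), IsCompHom f g h →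
      T.push i A g (r i B f) = r i B' h)
    (hsm : ∀ (i : ZMod 2) (B : Type) [NonUnitalCStarAlgebra B], Room B → T.Zero ℂ B →
      ∀ (z : T.G i A B) (S : Finset (Q i)) (ε : ℝ), 0 < ε →
      ∃ g : Hom (Q i) B, r i B g = z ∧ ∀ f ∈ S, ‖g f‖ < ε) :
    T.Uct A := by
  intro B _ hR hB
  obtain ⟨B₁, _, q₁, hq₁⟩ := exists_infty B
  obtain ⟨B₂, _, q₂, hq₂⟩ := exists_infty B₁
  have h1 := zero_infty hT hR hB hq₁
  refine zero_of_infty hT hA hR hq₁ (zero_infty_of hT hA hq₁ hq₂ fun i z => ?_)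
  exact infty_zero_of_small hT hA (r i) (hr i) h1.1 hq₂ z (hsm i B₁ h1.1 h1.2 z)

end theory

end

end Pool.Agent.Helper39.FU
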